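import Pool.Agent.H86.KB.GradedExp

/-!
# Exponential moments averaged over all initial segments of the rows: the theorem
-/

namespace Pool.Agent.H86.KB

open Finset Real

variable {d : ℕ} {J : Type*} [Fintype J]

theorem C1_pos {t M : ℝ} (ht : 1 ≤ t) (hM : 0 < M) : 0 < C1 t M := by
  have : 0 ≤ Real.log t := Real.log_nonneg ht
  have h1 : 0 < Real.sqrt t := Real.sqrt_pos.mpr (by linarith)
  have h2 : 0 < Real.sqrt (960 * M) := Real.sqrt_pos.mpr (by positivity)
  have h3 : 0 < Real.sqrt (Real.sqrt (960 * M)) := Real.sqrt_pos.mpr h2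
  unfold C1
  apply lt_min <;> positivity

theorem graded_exp (a : Fin d → J → ℝ) (t : ℝ) (ht : 1 ≤ t) (a1 : ∀ i j, |a i j| ≤ 1)
    (col : ∀ j, ∑ i, a i j ^ 2 ≤ t) (p : ℝ) (hp : 1 ≤ p) (x0 : J → ℝ) (hx0 : ∀ j, |x0 j| ≤ 1) :
    ∃ y : J → ℝ, Ext x0 y ∧ (∀ j, |y j| = 1) ∧
      ∀ m : ℕ, ∑ i ∈ Finset.univ.filter (fun i : Fin d => (i : ℕ) < m),
        exp (p * (|∑ j, a i j * (y j - x0 j)| / C1 t (16 * p))) ≤ m * exp (20 * p) := by
  classical
  set η : ℝ := exp (-(16 * p / 2)) with hη
  have hη0 : 0 < η := exp_pos _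
  have hη1 : η < 1 := by
    rw [hη, Real.exp_lt_one_iff]; linarith
  have hη8 : η = exp (-(8 * p)) := by rw [hη]; congr 1; ring
  set n0 : ℝ := ((alive x0).card : ℝ) + 1 with hn0
  have hn0p : 0 < n0 := by positivity
  set N : ℕ → ℝ := fun k => n0 * η ^ k with hNdef
  have hNp : ∀ k, 0 < N k := fun k => by simp only [hNdef]; positivity
  set T : ℕ → Finset (Fin d) := fun k => top d (N k * η / 50) with hTdef
  obtain ⟨x, hx00, hx1, hxN, hxE, hxc⟩ := process a t ht a1 col (fun _ => 16 * p) N
    (fun _ => by linarith)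
    (fun k => by
      simp only [hNdef]
      rw [← hη, pow_succ]
      linarith)
    T (fun k => by
      have h1 := card_top d (X := N k * η / 50) (by have := hNp k; positivity)
      have h2 : 50 * ((T k).card : ℝ) ≤ 50 * (N k * η / 50) := by
        apply mul_le_mul_of_nonneg_left h1 (by norm_num)
      rw [← hη]
      linarith) x0 hx0 (by simp only [hNdef]; rw [pow_zero, mul_one]; linarith)
  -- the last index
  obtain ⟨K, hK⟩ : ∃ K : ℕ, N K < 1 := by
    obtain ⟨K, hK⟩ := exists_pow_lt_of_lt_one (show (0 : ℝ) < 1 / n0 by positivity) hη1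
    refine ⟨K, ?_⟩
    rw [lt_div_iff₀ hn0p] at hK
    simp only [hNdef]
    linarith
  have hEK := ext_all hx1 hxE K
  rw [hx00] at hEK
  refine ⟨x K, hEK, fun j => sign_of_alive (hx1 K) (lt_of_le_of_lt (hxN K) hK) j, fun m => ?_⟩
  set C : ℝ := C1 t (16 * p) with hC
  have hC0 : 0 < C := C1_pos ht (by linarith)
  have herr : ∀ i, |∑ j, a i j * (x K j - x0 j)|
      ≤ ∑ k ∈ range K, chg a t (fun _ => 16 * p) T x i k := by
    intro i
    have := sum_chg a x (chg a t (fun _ => 16 * p) T x) hxc K i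
    rwa [hx00] at this
  rcases Nat.eq_zero_or_pos m with hm0 | hm0
  · rw [hm0]; simp
  have hmR : (1 : ℝ) ≤ m := by exact_mod_cast hm0
  -- the first phase in which the rows below `m` may change
  have hex : ∃ k, N k * η / 50 < m := by
    refine ⟨K, ?_⟩
    have h1 : N K * η < 1 := by
      have := mul_lt_mul'' hK hη1 (hNp K).le hη0.le
      linarith
    linarith
  set k0 := Nat.find hex with hk0
  have hk0s : N k0 * η / 50 < m := Nat.find_spec hex
  have hk0m : ∀ k < k0, (m : ℝ) ≤ N k * η / 50 := fun k hk => by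
    have := Nat.find_min hex hk
    push Not at this
    exact this
  set S : Finset (Fin d) := Finset.univ.filter (fun i : Fin d => (i : ℕ) < m) with hS
  have hScard : (S.card : ℝ) ≤ m := by
    have h1 : S.map Fin.valEmbedding ⊆ Finset.range m := by
      intro j hj
      rw [Finset.mem_map] at hj
      obtain ⟨i, hi, rfl⟩ := hj
      rw [hS, Finset.mem_filter] at hi
      rw [Finset.mem_range]
      exact hi.2
    have h2 := Finset.card_le_card h1
    rw [Finset.card_map, Finset.card_range] at h2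
    exact_mod_cast h2
  set u : Fin d → ℕ → ℝ := fun i b => gg t (16 * p) (en a (x (k0 + b)) i) with hu
  have hu0 : ∀ i b, 0 ≤ u i b := fun i b => gg_nonneg _ _ _
  have hu1 : ∀ i b, u i b ≤ 1 := fun i b => gg_le_one _ _ _
  -- the total change of a row below `m`
  have hrow : ∀ i ∈ S, |∑ j, a i j * (x K j - x0 j)| ≤ C * ∑ b ∈ range K, u i b := by
    intro i hi
    rw [hS, Finset.mem_filter] at hi
    have hi1 : ((i : ℕ) : ℝ) + 1 ≤ m := by exact_mod_cast hi.2
    refine (herr i).trans ?_
    have hcn : ∀ k, 0 ≤ chg a t (fun _ => 16 * p) T x i k := fun k =>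
      (abs_nonneg _).trans (hxc k i)
    have h1 : ∑ k ∈ range K, chg a t (fun _ => 16 * p) T x i k
        ≤ ∑ k ∈ range (k0 + K), chg a t (fun _ => 16 * p) T x i k :=
      Finset.sum_le_sum_of_subset_of_nonneg (Finset.range_mono (by omega)) (fun k _ _ => hcn k)
    refine h1.trans ?_
    rw [Finset.sum_range_add]
    have h2 : ∑ k ∈ range k0, chg a t (fun _ => 16 * p) T x i k = 0 := by
      refine Finset.sum_eq_zero fun k hk => ?_
      rw [Finset.mem_range] at hk
      have h3 : i ∈ T k := by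
        simp only [hTdef, top, Finset.mem_filter]
        exact ⟨Finset.mem_univ _, hi1.trans (hk0m k hk)⟩
      unfold chg
      rw [if_pos h3]
    rw [h2, zero_add, Finset.mul_sum]
    refine Finset.sum_le_sum fun b _ => ?_
    unfold chg
    split_ifs
    · exact mul_nonneg hC0.le (hu0 i b)
    · exact le_rfl
  -- the sums over the rows below `m`
  have hNb : ∀ b, N (k0 + (b + 2)) ≤ 50 * m * η ^ (b + 1) := by
    intro b
    have h1 : N (k0 + (b + 2)) = N k0 * η * η ^ (b + 1) := by
      simp only [hNdef]; ring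
    rw [h1]
    apply mul_le_mul_of_nonneg_right _ (by positivity)
    linarith
  have hsum : ∀ b : ℕ, ∑ i ∈ S, exp (p * b) * (2 ^ b * u i b) ^ 4
      = exp (p * b) * 16 ^ b * ∑ i ∈ S, u i b ^ 4 := by
    intro b
    rw [Finset.mul_sum]
    refine Finset.sum_congr rfl fun i _ => ?_
    have h2 : (16 : ℝ) ^ b = (2 ^ b) ^ 4 := by
      rw [← pow_mul, mul_comm b 4, pow_mul]; norm_num
    rw [mul_pow, h2]; ring
  have hsm : ∀ b, ∑ i ∈ S, u i b ^ 4 ≤ m := by
    intro b
    calc ∑ i ∈ S, u i b ^ 4 ≤ ∑ i ∈ S, (1 : ℝ) :=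
          Finset.sum_le_sum fun i _ => pow_le_one₀ (hu0 i b) (hu1 i b)
      _ = S.card := by simp
      _ ≤ m := hScard
  have hsm2 : ∀ b, ∑ i ∈ S, u i (b + 2) ^ 4 ≤ 768000 * p * m * η ^ (b + 1) := by
    intro b
    have h1 : ∀ i ∈ S, u i (b + 2) ^ 4 ≤ 960 * (16 * p) / t * en a (x (k0 + (b + 2))) i := by
      intro i _
      calc u i (b + 2) ^ 4
          ≤ 960 * (16 * p) * en a (x (k0 + (b + 2))) i / t :=
            gg_pow ht (by positivity) (en_nonneg _ _ _)
        _ = _ := by ring
    refine (Finset.sum_le_sum h1).trans ?_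
    rw [← Finset.mul_sum]
    have h2 := en_sum a t col (x (k0 + (b + 2))) S
    have h3 : t * ((alive (x (k0 + (b + 2)))).card : ℝ) ≤ t * (50 * m * η ^ (b + 1)) :=
      mul_le_mul_of_nonneg_left ((hxN _).trans (hNb b)) (by linarith)
    calc 960 * (16 * p) / t * ∑ i ∈ S, en a (x (k0 + (b + 2))) i
        ≤ 960 * (16 * p) / t * (t * (50 * m * η ^ (b + 1))) :=
          mul_le_mul_of_nonneg_left (h2.trans h3) (by positivity)
      _ = _ := by
          have : t ≠ 0 := by linarith
          field_simp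
          ring
  -- conclusion
  have hp0 : 0 ≤ p := by linarith
  calc ∑ i ∈ S, exp (p * (|∑ j, a i j * (x K j - x0 j)| / C))
      ≤ ∑ i ∈ S, (exp (2 * p) * (1 + ∑ b ∈ range K, exp (p * b) * (2 ^ b * u i b) ^ 4)) := by
        refine Finset.sum_le_sum fun i hi => ?_
        have h1 : |∑ j, a i j * (x K j - x0 j)| / C ≤ ∑ b ∈ range K, u i b := by
          rw [div_le_iff₀ hC0, mul_comm]
          exact hrow i hi
        calc exp (p * (|∑ j, a i j * (x K j - x0 j)| / C)) ≤ exp (p * ∑ b ∈ range K, u i b) :=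
              exp_le_exp.mpr (mul_le_mul_of_nonneg_left h1 hp0)
          _ ≤ _ := exp_sum_le p hp0 (u i) (hu0 i) (hu1 i) K
          _ ≤ _ := by
              apply mul_le_mul_of_nonneg_right
              · apply exp_le_exp.mpr
                have := mul_le_mul_of_nonneg_left (half_sum K) hp0
                linarith
              · have : 0 ≤ ∑ b ∈ range K, exp (p * b) * (2 ^ b * u i b) ^ 4 :=
                  Finset.sum_nonneg fun b _ => by have := hu0 i b; positivity
                linarith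
    _ = exp (2 * p) * ((S.card : ℝ) + ∑ b ∈ range K, ∑ i ∈ S, exp (p * b) * (2 ^ b * u i b) ^ 4) := by
        rw [← Finset.mul_sum, Finset.sum_add_distrib, Finset.sum_comm, Finset.sum_const,
          nsmul_eq_mul, mul_one]
    _ ≤ exp (2 * p) * ((m : ℝ) + ∑ b ∈ range K, ∑ i ∈ S, exp (p * b) * (2 ^ b * u i b) ^ 4) :=
        mul_le_mul_of_nonneg_left (by linarith) (exp_pos _).le
    _ ≤ m * exp (20 * p) := by
        apply num_sum_exp p hp m (by linarith) K
          (fun b => ∑ i ∈ S, exp (p * b) * (2 ^ b * u i b) ^ 4)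
        · rw [hsum]
          have := hsm 0
          simpa using this
        · rw [hsum]
          have := hsm 1
          calc exp (p * ((1 : ℕ) : ℝ)) * 16 ^ 1 * ∑ i ∈ S, u i 1 ^ 4
              ≤ exp (p * ((1 : ℕ) : ℝ)) * 16 ^ 1 * m := mul_le_mul_of_nonneg_left this (by positivity)
            _ = 16 * exp p * m := by push_cast; rw [mul_one, pow_one]; ring
        · intro b
          rw [hsum]
          have := hsm2 b
          rw [hη8] at this
          calc exp (p * ((b + 2 : ℕ) : ℝ)) * 16 ^ (b + 2) * ∑ i ∈ S, u i (b + 2) ^ 4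
              ≤ exp (p * ((b + 2 : ℕ) : ℝ)) * 16 ^ (b + 2) *
                (768000 * p * m * exp (-(8 * p)) ^ (b + 1)) :=
                mul_le_mul_of_nonneg_left this (by positivity)
            _ = _ := by push_cast; ring
        · intro b
          exact Finset.sum_nonneg fun i _ => by have := hu0 i b; positivity

end Pool.Agent.H86.KB
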