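import Pool.Agent.H86.KB.Lq

/-!
# Exponential moments averaged over all initial segments of the rows
-/

namespace Pool.Agent.H86.KB

open Finset Real

theorem exp_sum_le (p : ℝ) (hp : 0 ≤ p) (u : ℕ → ℝ) (hu0 : ∀ b, 0 ≤ u b) (hu1 : ∀ b, u b ≤ 1)
    (B : ℕ) :
    exp (p * ∑ b ∈ range B, u b) ≤ exp (p * ∑ b ∈ range B, (1 / 2 : ℝ) ^ b)
      * (1 + ∑ b ∈ range B, exp (p * b) * (2 ^ b * u b) ^ 4) := by
  induction B with
  | zero => simp
  | succ B ih =>
    rw [Finset.sum_range_succ, Finset.sum_range_succ (fun b => (1 / 2 : ℝ) ^ b),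
      Finset.sum_range_succ (fun b => exp (p * b) * (2 ^ b * u b) ^ 4)]
    set R : ℝ := ∑ b ∈ range B, exp (p * b) * (2 ^ b * u b) ^ 4 with hR
    have hR0 : 0 ≤ R := Finset.sum_nonneg fun b _ => by have := hu0 b; positivity
    have hB0 := hu0 B
    have hB1 := hu1 B
    by_cases h : u B ≤ (1 / 2 : ℝ) ^ B
    · have h1 : exp (p * (∑ b ∈ range B, u b + u B)) = exp (p * ∑ b ∈ range B, u b) * exp (p * u B) := by
        rw [← exp_add]; congr 1; ring
      have h2 : exp (p * (∑ b ∈ range B, (1 / 2 : ℝ) ^ b + (1 / 2) ^ B))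
          = exp (p * ∑ b ∈ range B, (1 / 2 : ℝ) ^ b) * exp (p * (1 / 2) ^ B) := by
        rw [← exp_add]; congr 1; ring
      rw [h1, h2]
      have h3 : exp (p * u B) ≤ exp (p * (1 / 2) ^ B) :=
        exp_le_exp.mpr (mul_le_mul_of_nonneg_left h hp)
      have h4 : 0 ≤ exp (p * B) * (2 ^ B * u B) ^ 4 := by positivity
      calc exp (p * ∑ b ∈ range B, u b) * exp (p * u B)
          ≤ (exp (p * ∑ b ∈ range B, (1 / 2 : ℝ) ^ b) * (1 + R)) * exp (p * (1 / 2) ^ B) :=
            mul_le_mul ih h3 (exp_pos _).le (by positivity)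
        _ = (exp (p * ∑ b ∈ range B, (1 / 2 : ℝ) ^ b) * exp (p * (1 / 2) ^ B)) * (1 + R) := by ring
        _ ≤ _ := mul_le_mul_of_nonneg_left (by linarith) (by positivity)
    · push Not at h
      have h1 : ∑ b ∈ range B, u b + u B ≤ B + 1 := by
        have h2 : ∑ b ∈ range B, u b ≤ ∑ b ∈ range B, (1 : ℝ) :=
          Finset.sum_le_sum fun b _ => hu1 b
        rw [Finset.sum_const, Finset.card_range, nsmul_eq_mul, mul_one] at h2
        linarith
      have h2 : (1 : ℝ) ≤ ∑ b ∈ range B, (1 / 2 : ℝ) ^ b + (1 / 2) ^ B := by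
        rw [← Finset.sum_range_succ]
        have h3 := Finset.single_le_sum (f := fun b => (1 / 2 : ℝ) ^ b)
          (fun b _ => by positivity) (Finset.mem_range.mpr (Nat.succ_pos B))
        simpa using h3
      have h3 : (1 : ℝ) ≤ (2 ^ B * u B) ^ 4 := by
        apply one_le_pow₀
        have h4 : (2 : ℝ) ^ B * (1 / 2) ^ B = 1 := by rw [← mul_pow]; norm_num
        rw [← h4]
        exact mul_le_mul_of_nonneg_left h.le (by positivity)
      calc exp (p * (∑ b ∈ range B, u b + u B)) ≤ exp (p * (B + 1)) :=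
            exp_le_exp.mpr (mul_le_mul_of_nonneg_left h1 hp)
        _ = exp (p * 1) * (exp (p * B) * 1) := by
            rw [mul_one (exp (p * (B : ℝ))), ← exp_add]; congr 1; ring
        _ ≤ exp (p * (∑ b ∈ range B, (1 / 2 : ℝ) ^ b + (1 / 2) ^ B))
            * (exp (p * B) * (2 ^ B * u B) ^ 4) := by
            apply mul_le_mul _ _ (by positivity) (exp_pos _).le
            · exact exp_le_exp.mpr (mul_le_mul_of_nonneg_left h2 hp)
            · exact mul_le_mul_of_nonneg_left h3 (exp_pos _).le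
        _ ≤ _ := by
            apply mul_le_mul_of_nonneg_left _ (exp_pos _).le
            linarith

theorem half_sum (B : ℕ) : ∑ b ∈ range B, (1 / 2 : ℝ) ^ b ≤ 2 := by
  have h : ∑ b ∈ range B, (1 / 2 : ℝ) ^ b + 2 * (1 / 2) ^ B = 2 := by
    induction B with
    | zero => norm_num
    | succ B ih => rw [Finset.sum_range_succ, pow_succ]; linarith
  have : (0 : ℝ) < 2 * (1 / 2) ^ B := by positivity
  linarith

theorem exp_six : (256 : ℝ) * exp (-6) ≤ 2 / 3 := by
  have h1 := Real.exp_one_gt_d9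
  have h2 : (384 : ℝ) ≤ exp 6 := by
    have h3 : exp 6 = exp 1 ^ 6 := by rw [← exp_nat_mul]; norm_num
    rw [h3]
    have h4 : (2.71 : ℝ) ^ 6 ≤ exp 1 ^ 6 := by
      apply pow_le_pow_left₀ (by norm_num)
      linarith
    refine le_trans ?_ h4
    norm_num
  rw [exp_neg]
  have h3 : (exp 6)⁻¹ ≤ 384⁻¹ := inv_anti₀ (by norm_num) h2
  have h4 : (256 : ℝ) * (exp 6)⁻¹ ≤ 256 * 384⁻¹ := by linarith
  refine h4.trans (le_of_eq ?_)
  norm_num

theorem exp_fifteen : (1536018 : ℝ) ≤ exp 15 := by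
  have h1 := Real.exp_one_gt_d9
  have h3 : exp 15 = exp 1 ^ 15 := by rw [← exp_nat_mul]; norm_num
  rw [h3]
  have h4 : (2.7 : ℝ) ^ 15 ≤ exp 1 ^ 15 := by
    apply pow_le_pow_left₀ (by norm_num)
    linarith
  refine le_trans ?_ h4
  norm_num

/-- The numerical sum. -/
theorem num_sum_exp (p : ℝ) (hp : 1 ≤ p) (m : ℝ) (hm : 0 ≤ m) (B : ℕ) (f : ℕ → ℝ)
    (h0 : f 0 ≤ m) (h1 : f 1 ≤ 16 * exp p * m)
    (h2 : ∀ b : ℕ, f (b + 2) ≤ exp (p * (b + 2)) * 16 ^ (b + 2) *
      (768000 * p * m * exp (-(8 * p)) ^ (b + 1))) (hf : ∀ b, 0 ≤ f b) :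
    exp (2 * p) * (m + ∑ b ∈ range B, f b) ≤ m * exp (20 * p) := by
  have hterm : ∀ b : ℕ, f (b + 2) ≤ 768000 * p * m * (2 / 3) ^ (b + 1) := by
    intro b
    refine (h2 b).trans ?_
    have e1 : exp (-(8 * p)) ^ (b + 1) = exp (-(8 * p) * (b + 1)) := by
      rw [← exp_nat_mul]; congr 1; push_cast; ring
    have e2 : exp (p * (b + 2)) * exp (-(8 * p) * (b + 1)) ≤ exp (-6) ^ (b + 1) := by
      rw [← exp_add, ← exp_nat_mul]
      apply exp_le_exp.mpr
      push_cast
      have hb : (0 : ℝ) ≤ b := Nat.cast_nonneg b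
      nlinarith
    have e3 : (16 : ℝ) ^ (b + 2) ≤ 256 ^ (b + 1) := by
      have : (256 : ℝ) ^ (b + 1) = 16 ^ (2 * (b + 1)) := by rw [pow_mul]; norm_num
      rw [this]
      exact pow_le_pow_right₀ (by norm_num) (by omega)
    rw [e1]
    calc exp (p * (b + 2)) * 16 ^ (b + 2) * (768000 * p * m * exp (-(8 * p) * (b + 1)))
        = 768000 * p * m * ((exp (p * (b + 2)) * exp (-(8 * p) * (b + 1))) * 16 ^ (b + 2)) := by
          ring
      _ ≤ 768000 * p * m * (exp (-6) ^ (b + 1) * 256 ^ (b + 1)) := by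
          apply mul_le_mul_of_nonneg_left _ (by positivity)
          exact mul_le_mul e2 e3 (by positivity) (by positivity)
      _ = 768000 * p * m * (256 * exp (-6)) ^ (b + 1) := by rw [mul_pow]; ring
      _ ≤ 768000 * p * m * (2 / 3) ^ (b + 1) := by
          apply mul_le_mul_of_nonneg_left _ (by positivity)
          exact pow_le_pow_left₀ (by positivity) exp_six _
  have hgeo : ∀ B : ℕ, ∑ b ∈ range B, (2 / 3 : ℝ) ^ (b + 1) ≤ 2 := by
    intro B
    have h3 : ∑ b ∈ range B, (2 / 3 : ℝ) ^ (b + 1) + 2 * (2 / 3) ^ B = 2 := by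
      induction B with
      | zero => norm_num
      | succ B ih => rw [Finset.sum_range_succ, pow_succ]; linarith
    have : (0 : ℝ) < 2 * (2 / 3) ^ B := by positivity
    linarith
  have hle : ∑ b ∈ range B, f b ≤ ∑ b ∈ range (2 + B), f b :=
    Finset.sum_le_sum_of_subset_of_nonneg (Finset.range_mono (by omega)) (fun b _ _ => hf b)
  rw [Finset.sum_range_add, Finset.sum_range_succ, Finset.sum_range_succ,
    Finset.sum_range_zero, zero_add] at hle
  have h3 : ∑ b ∈ range B, f (2 + b) ≤ ∑ b ∈ range B, 768000 * p * m * (2 / 3) ^ (b + 1) :=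
    Finset.sum_le_sum fun b _ => by rw [add_comm]; exact hterm b
  rw [← Finset.mul_sum] at h3
  have h4 : 768000 * p * m * ∑ b ∈ range B, (2 / 3 : ℝ) ^ (b + 1) ≤ 768000 * p * m * 2 :=
    mul_le_mul_of_nonneg_left (hgeo B) (by positivity)
  have h5 : p ≤ exp p := by linarith [Real.add_one_le_exp p]
  have h6 : 1 ≤ exp p := by linarith
  have h7 : m + ∑ b ∈ range B, f b ≤ m * (1536018 * exp p) := by
    have h8 : m * p ≤ m * exp p := mul_le_mul_of_nonneg_left h5 hm
    have h9 : m * 1 ≤ m * exp p := mul_le_mul_of_nonneg_left h6 hm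
    nlinarith
  calc exp (2 * p) * (m + ∑ b ∈ range B, f b) ≤ exp (2 * p) * (m * (1536018 * exp p)) :=
        mul_le_mul_of_nonneg_left h7 (exp_pos _).le
    _ = m * (1536018 * (exp (2 * p) * exp p)) := by ring
    _ ≤ m * (exp (15 * p) * (exp (2 * p) * exp p)) := by
        apply mul_le_mul_of_nonneg_left _ hm
        apply mul_le_mul_of_nonneg_right _ (by positivity)
        exact exp_fifteen.trans (exp_le_exp.mpr (by linarith))
    _ = m * exp (18 * p) := by
        rw [← exp_add, ← exp_add]; congr 2; ring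
    _ ≤ m * exp (20 * p) := by
        apply mul_le_mul_of_nonneg_left _ hm
        exact exp_le_exp.mpr (by linarith)

end Pool.Agent.H86.KB
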