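import Pool.Agent.H86.KB.Proc

/-!
# Moments of the coordinates, averaged over initial segments
-/

namespace Pool.Agent.H86.KB

open Finset Real

/-- The first rows. -/
noncomputable def top (d : ℕ) (X : ℝ) : Finset (Fin d) :=
  Finset.univ.filter (fun i : Fin d => (i : ℝ) + 1 ≤ X)

theorem card_top (d : ℕ) {X : ℝ} (hX : 0 ≤ X) : ((top d X).card : ℝ) ≤ X := by
  have h1 : (top d X).map Fin.valEmbedding ⊆ Finset.range ⌊X⌋₊ := by
    intro j hj
    rw [Finset.mem_map] at hj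
    obtain ⟨i, hi, rfl⟩ := hj
    unfold top at hi
    rw [Finset.mem_filter] at hi
    rw [Finset.mem_range]
    have h2 : ((i : ℕ) + 1 : ℕ) ≤ ⌊X⌋₊ := Nat.le_floor (by push_cast; exact hi.2)
    simpa using h2
  have h2 := Finset.card_le_card h1
  rw [Finset.card_map, Finset.card_range] at h2
  calc ((top d X).card : ℝ) ≤ (⌊X⌋₊ : ℝ) := by exact_mod_cast h2
    _ ≤ X := Nat.floor_le hX

/-- A sum is at most the largest of the terms with weights `2 ^ (b + 1)`. -/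
theorem sum_pow_le (u : ℕ → ℝ) (hu : ∀ b, 0 ≤ u b) (q B : ℕ) (hq : 1 ≤ q) :
    (∑ b ∈ range B, u b) ^ q ≤ ∑ b ∈ range B, (2 ^ (b + 1) * u b) ^ q := by
  set S : ℝ := ∑ b ∈ range B, u b with hS
  have hS0 : 0 ≤ S := Finset.sum_nonneg fun b _ => hu b
  rcases hS0.eq_or_lt with h0 | h0
  · rw [← h0, zero_pow (by omega)]
    exact Finset.sum_nonneg fun b _ => by have := hu b; positivity
  have hgeo : ∀ B : ℕ, ∑ b ∈ range B, (1 / 2 : ℝ) ^ (b + 1) < 1 := by
    intro B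
    have h1 : ∑ b ∈ range B, (1 / 2 : ℝ) ^ (b + 1) = 1 - (1 / 2) ^ B := by
      induction B with
      | zero => simp
      | succ B ih => rw [Finset.sum_range_succ, ih, pow_succ]; ring
    rw [h1]
    have : (0 : ℝ) < (1 / 2) ^ B := by positivity
    linarith
  have hex : ∃ b ∈ range B, S ≤ 2 ^ (b + 1) * u b := by
    by_contra hcon
    push Not at hcon
    have h1 : ∀ b ∈ range B, u b ≤ (1 / 2 : ℝ) ^ (b + 1) * S := by
      intro b hb
      have h2 := (hcon b hb).le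
      have h3 : (1 / 2 : ℝ) ^ (b + 1) * (2 ^ (b + 1) * u b) ≤ (1 / 2 : ℝ) ^ (b + 1) * S :=
        mul_le_mul_of_nonneg_left h2 (by positivity)
      refine le_trans (le_of_eq ?_) h3
      rw [← mul_assoc, ← mul_pow]
      norm_num
    have h2 := Finset.sum_le_sum h1
    rw [← Finset.sum_mul, ← hS] at h2
    have h3 := hgeo B
    nlinarith
  obtain ⟨b, hb, h1⟩ := hex
  calc S ^ q ≤ (2 ^ (b + 1) * u b) ^ q := pow_le_pow_left₀ h0.le h1 q
    _ ≤ _ := Finset.single_le_sum (f := fun b => (2 ^ (b + 1) * u b) ^ q)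
        (fun b _ => by have := hu b; positivity) hb

theorem exp_eight : (8 : ℝ) * exp (-8) ≤ 1 / 360 := by
  have h1 := Real.exp_one_gt_d9
  have h2 : (2880 : ℝ) ≤ exp 8 := by
    have h3 : exp 8 = exp 1 ^ 8 := by rw [← exp_nat_mul]; norm_num
    rw [h3]
    have h4 : (2.7182818283 : ℝ) ^ 8 ≤ exp 1 ^ 8 := by
      apply pow_le_pow_left₀ (by norm_num) h1.le
    refine le_trans ?_ h4
    norm_num
  rw [exp_neg]
  have h3 : (exp 8)⁻¹ ≤ 2880⁻¹ := inv_anti₀ (by norm_num) h2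
  have h4 : (8 : ℝ) * (exp 8)⁻¹ ≤ 8 * 2880⁻¹ := by linarith
  refine h4.trans (le_of_eq ?_)
  norm_num

/-- The numerical sum. -/
theorem num_sum (q : ℕ) (hq : 4 ≤ q) (η : ℝ) (hη0 : 0 < η) (hη : 8 ^ q * η ≤ (1 / 360) ^ q)
    (B : ℕ) (f : ℕ → ℝ) (h0 : f 0 ≤ 2 ^ q) (h1 : f 1 ≤ 4 ^ q)
    (h2 : ∀ b, f (b + 2) ≤ 768000 * q * (8 ^ q * η) ^ (b + 1)) (hf : ∀ b, 0 ≤ f b) :
    ∑ b ∈ range B, f b ≤ 6 ^ q := by
  set r : ℝ := 8 ^ q * η with hr
  have hr0 : 0 < r := by positivity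
  have hr1 : r ≤ 1 / 2 := by
    refine hη.trans ?_
    calc (1 / 360 : ℝ) ^ q ≤ (1 / 360) ^ 1 := pow_le_pow_of_le_one (by norm_num) (by norm_num) (by omega)
      _ ≤ 1 / 2 := by norm_num
  have hgeo : ∀ B : ℕ, ∑ b ∈ range B, r ^ (b + 1) ≤ 2 * r := by
    intro B
    have h3 : ∑ b ∈ range B, r ^ (b + 1) + 2 * r ^ (B + 1) ≤ 2 * r := by
      induction B with
      | zero => simp
      | succ B ih =>
        rw [Finset.sum_range_succ]
        have h4 : r ^ (B + 1 + 1) = r ^ (B + 1) * r := pow_succ _ _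
        have h5 : 0 < r ^ (B + 1) := by positivity
        nlinarith
    have : 0 < r ^ (B + 1) := by positivity
    linarith
  have hqr : 768000 * q * (2 * r) ≤ 1 := by
    have h3 : (q : ℝ) ≤ 2 ^ q := by
      have := Nat.lt_two_pow_self (n := q)
      exact_mod_cast this.le
    have h4 : (q : ℝ) * r ≤ (1 / 180) ^ q := by
      calc (q : ℝ) * r ≤ 2 ^ q * (1 / 360) ^ q := mul_le_mul h3 hη hr0.le (by positivity)
        _ = (1 / 180) ^ q := by rw [← mul_pow]; norm_num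
    have h5 : (1 / 180 : ℝ) ^ q ≤ (1 / 180) ^ 4 :=
      pow_le_pow_of_le_one (by norm_num) (by norm_num) hq
    have h6 : (q : ℝ) * r ≤ (1 / 180) ^ 4 := h4.trans h5
    have h7 : (768000 : ℝ) * 2 * (1 / 180) ^ 4 ≤ 1 := by norm_num
    calc 768000 * (q : ℝ) * (2 * r) = 768000 * 2 * (q * r) := by ring
      _ ≤ 768000 * 2 * (1 / 180) ^ 4 := by linarith
      _ ≤ 1 := h7
  have hsix : (2 : ℝ) ^ q + 4 ^ q + 1 ≤ 6 ^ q := by
    have h3 : ∀ m : ℕ, (2 : ℝ) ^ (m + 2) + 4 ^ (m + 2) + 1 ≤ 6 ^ (m + 2) := by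
      intro m
      induction m with
      | zero => norm_num
      | succ m ih =>
        have e2 : (2 : ℝ) ^ (m + 1 + 2) = 2 * 2 ^ (m + 2) := by ring
        have e4 : (4 : ℝ) ^ (m + 1 + 2) = 4 * 4 ^ (m + 2) := by ring
        have e6 : (6 : ℝ) ^ (m + 1 + 2) = 6 * 6 ^ (m + 2) := by ring
        rw [e2, e4, e6]
        have : (0 : ℝ) < 2 ^ (m + 2) := by positivity
        have : (0 : ℝ) < 4 ^ (m + 2) := by positivity
        linarith
    obtain ⟨m, rfl⟩ := Nat.exists_eq_add_of_le' (show 2 ≤ q by omega)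
    exact h3 m
  have hle : ∑ b ∈ range B, f b ≤ ∑ b ∈ range (B + 2), f b :=
    Finset.sum_le_sum_of_subset_of_nonneg (Finset.range_mono (by omega)) (fun b _ _ => hf b)
  refine hle.trans ?_
  rw [add_comm B 2, Finset.sum_range_add, Finset.sum_range_succ, Finset.sum_range_succ,
    Finset.sum_range_zero, zero_add]
  have h3 : ∑ b ∈ range B, f (2 + b) ≤ ∑ b ∈ range B, 768000 * q * r ^ (b + 1) :=
    Finset.sum_le_sum fun b _ => by rw [add_comm]; exact h2 b
  rw [← Finset.mul_sum] at h3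
  have h4 : 768000 * (q : ℝ) * ∑ b ∈ range B, r ^ (b + 1) ≤ 768000 * q * (2 * r) :=
    mul_le_mul_of_nonneg_left (hgeo B) (by positivity)
  linarith

end Pool.Agent.H86.KB
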