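import Pool.Agent.H86.KB.BlkX

/-!
# One phase and sequences of phases

In a phase the number of fractional indices decreases from `N` to `N e^(-M/2)`; the rows in a given
set `T` of at most `N e^(-M/2) / 50` rows are kept unchanged, and the row `i` changes by at most
`C1 t M * gg t M (en a x i)`.
-/

namespace Pool.Agent.H86.KB

open Finset Real H167KL

variable {I J : Type*} [Fintype I] [Fintype J]

/-- The fractional indices. -/
noncomputable def alive (x : J → ℝ) : Finset J := H167FK.Sys.alive x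

theorem mem_alive {x : J → ℝ} {j : J} : j ∈ alive x ↔ |x j| < 1 := by
  unfold alive H167FK.Sys.alive
  simp

/-- The energy of a row on the fractional indices. -/
noncomputable def en (a : I → J → ℝ) (x : J → ℝ) (i : I) : ℝ := ∑ j ∈ alive x, a i j ^ 2

theorem en_nonneg (a : I → J → ℝ) (x : J → ℝ) (i : I) : 0 ≤ en a x i :=
  Finset.sum_nonneg fun _ _ => sq_nonneg _

/-- The reduction factor of a row. -/
noncomputable def gg (t M r : ℝ) : ℝ := min 1 (Real.sqrt (Real.sqrt (960 * M * r / t)))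

theorem gg_nonneg (t M r : ℝ) : 0 ≤ gg t M r := le_min zero_le_one (Real.sqrt_nonneg _)

theorem gg_le_one (t M r : ℝ) : gg t M r ≤ 1 := min_le_left _ _

theorem gg_pow {t M r : ℝ} (ht : 1 ≤ t) (hM : 0 ≤ M) (hr : 0 ≤ r) :
    gg t M r ^ 4 ≤ 960 * M * r / t := by
  have h0 : 0 ≤ 960 * M * r / t := by positivity
  have h1 : gg t M r ≤ Real.sqrt (Real.sqrt (960 * M * r / t)) := min_le_right _ _
  calc gg t M r ^ 4 ≤ Real.sqrt (Real.sqrt (960 * M * r / t)) ^ 4 :=
        pow_le_pow_left₀ (gg_nonneg _ _ _) h1 4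
    _ = (Real.sqrt (Real.sqrt (960 * M * r / t)) ^ 2) ^ 2 := by ring
    _ = 960 * M * r / t := by
        rw [Real.sq_sqrt (Real.sqrt_nonneg _), Real.sq_sqrt h0]

/-- The cost of a phase. -/
noncomputable def C1 (t M : ℝ) : ℝ :=
  min (520 * Real.sqrt (Real.sqrt (960 * M)) * Real.sqrt t)
    (520 * Real.sqrt t + 753 * Real.sqrt (960 * M) * (1 + Real.log t) ^ (3 / 2 : ℝ))

theorem C1_nonneg {t M : ℝ} (ht : 1 ≤ t) : 0 ≤ C1 t M := by
  have : 0 ≤ Real.log t := Real.log_nonneg ht
  unfold C1
  apply le_min <;> positivity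

/-- `y` agrees with `x` where `x` is a sign. -/
def Ext (x y : J → ℝ) : Prop := (∀ j, |y j| ≤ 1) ∧ ∀ j, |x j| = 1 → y j = x j

theorem Ext.refl {x : J → ℝ} (h : ∀ j, |x j| ≤ 1) : Ext x x := ⟨h, fun _ _ => rfl⟩

theorem Ext.trans {x y z : J → ℝ} (h1 : Ext x y) (h2 : Ext y z) : Ext x z := by
  refine ⟨h2.1, fun j hj => ?_⟩
  have h3 := h1.2 j hj
  rw [h2.2 j (by rw [h3]; exact hj), h3]

theorem Ext.alive_sub {x y : J → ℝ} (hx : ∀ j, |x j| ≤ 1) (h : Ext x y) : alive y ⊆ alive x := by
  intro j hj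
  rw [mem_alive] at *
  refine lt_of_le_of_ne (hx j) fun h2 => ?_
  have h3 := h.2 j h2
  rw [h3, h2] at hj
  exact lt_irrefl _ hj

theorem en_anti (a : I → J → ℝ) {x y : J → ℝ} (hx : ∀ j, |x j| ≤ 1) (h : Ext x y) (i : I) :
    en a y i ≤ en a x i :=
  Finset.sum_le_sum_of_subset_of_nonneg (h.alive_sub hx) (fun _ _ _ => sq_nonneg _)

theorem en_sum (a : I → J → ℝ) (t : ℝ) (col : ∀ j, ∑ i, a i j ^ 2 ≤ t) (x : J → ℝ) (S : Finset I) :
    ∑ i ∈ S, en a x i ≤ t * (alive x).card := by
  unfold en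
  rw [Finset.sum_comm]
  calc ∑ j ∈ alive x, ∑ i ∈ S, a i j ^ 2 ≤ ∑ j ∈ alive x, t := by
        refine Finset.sum_le_sum fun j _ => le_trans ?_ (col j)
        exact Finset.sum_le_sum_of_subset_of_nonneg (Finset.subset_univ _)
          (fun _ _ _ => sq_nonneg _)
    _ = t * (alive x).card := by rw [Finset.sum_const, nsmul_eq_mul, mul_comm]

/-- One phase. -/
theorem phase (a : I → J → ℝ) (t : ℝ) (ht : 1 ≤ t) (a1 : ∀ i j, |a i j| ≤ 1)
    (col : ∀ j, ∑ i, a i j ^ 2 ≤ t) (x0 : J → ℝ) (hx0 : ∀ j, |x0 j| ≤ 1) (M : ℝ) (hM : 1 ≤ M)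
    (T : Finset I) :
    ∃ y : J → ℝ, Ext x0 y ∧ (∀ i ∈ T, ∑ j, a i j * (y j - x0 j) = 0) ∧
      (∀ i, |∑ j, a i j * (y j - x0 j)| ≤ C1 t M * gg t M (en a x0 i)) ∧
      ((alive y).card : ℝ) ≤ 20 * T.card + 2 * (alive x0).card * exp (-M) := by
  classical
  have hC := C1_nonneg (M := M) ht
  have hs4 : Real.sqrt (Real.sqrt (960 * M)) ^ 4 = 960 * M := by
    calc Real.sqrt (Real.sqrt (960 * M)) ^ 4 = (Real.sqrt (Real.sqrt (960 * M)) ^ 2) ^ 2 := by ring
      _ = 960 * M := by
          rw [Real.sq_sqrt (Real.sqrt_nonneg _), Real.sq_sqrt (by linarith)]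
  have hs1 : 1 ≤ Real.sqrt (Real.sqrt (960 * M)) :=
    Real.one_le_sqrt.mpr (Real.one_le_sqrt.mpr (by linarith))
  have hmass : ∀ i, ∑ j : alive x0, a i j ^ 2 = en a x0 i := fun i =>
    Finset.sum_coe_sort (alive x0) (fun j => a i j ^ 2)
  let P : BlkX I (alive x0) :=
    { a := fun i j => a i j
      I0 := T
      I1 := Finset.univ.filter (fun i => i ∉ T ∧ 0 < en a x0 i)
      t := t
      ht := ht
      M := M
      hM := hM
      a1 := fun i j => a1 i j
      col := fun j => col j
      x0 := fun j => x0 j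
      hx0 := fun j => hx0 j
      s := Real.sqrt (Real.sqrt (960 * M))
      hs := hs1
      hsM := le_of_eq hs4.symm
      τ := fun i => gg t M (en a x0 i)
      τ_pos := by
        intro i hi
        have h1 := (Finset.mem_filter.mp hi).2.2
        unfold gg
        refine lt_min one_pos (Real.sqrt_pos.mpr (Real.sqrt_pos.mpr ?_))
        have h2 : 0 < M := by linarith
        positivity
      τ_le := fun i _ => gg_le_one _ _ _
      τ_mass := by
        intro i _
        rw [hmass]
        unfold gg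
        rcases le_total 1 (Real.sqrt (Real.sqrt (960 * M * en a x0 i / t))) with h | h
        · left; exact min_eq_left h
        · right
          have h0 := en_nonneg a x0 i
          have hz : 0 ≤ 960 * M * en a x0 i / t := by positivity
          have h4 : Real.sqrt (Real.sqrt (960 * M * en a x0 i / t)) ^ 4
              = 960 * M * en a x0 i / t := by
            calc _ = (Real.sqrt (Real.sqrt (960 * M * en a x0 i / t)) ^ 2) ^ 2 := by ring
              _ = _ := by rw [Real.sq_sqrt (Real.sqrt_nonneg _), Real.sq_sqrt hz]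
          rw [min_eq_right h, div_pow, h4, hs4]
          apply le_of_eq
          field_simp }
  obtain ⟨x, hx1, hx0', hxI1, hxal⟩ := P.block
  let y : J → ℝ := fun j => if h : j ∈ alive x0 then x ⟨j, h⟩ else x0 j
  have hy1 : ∀ j : alive x0, y j = x j := fun j => by simp [y, j.2]
  have hy2 : ∀ j, j ∉ alive x0 → y j = x0 j := fun j hj => by simp [y, hj]
  have hsum : ∀ i, ∑ j, a i j * (y j - x0 j) = ∑ j : alive x0, a i j * (x j - x0 j) := by
    intro i
    have h1 : ∑ j, a i j * (y j - x0 j) = ∑ j ∈ alive x0, a i j * (y j - x0 j) := by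
      symm
      apply Finset.sum_subset (Finset.subset_univ _)
      intro j _ hj
      rw [hy2 j hj, sub_self, mul_zero]
    rw [h1, ← Finset.sum_coe_sort (alive x0) (fun j => a i j * (y j - x0 j))]
    exact Finset.sum_congr rfl fun j _ => by rw [hy1]
  have hext : Ext x0 y := by
    refine ⟨fun j => ?_, fun j hj => ?_⟩
    · by_cases h : j ∈ alive x0
      · rw [hy1 ⟨j, h⟩]; exact hx1 _
      · rw [hy2 j h]; exact hx0 j
    · apply hy2
      rw [mem_alive, hj]
      exact lt_irrefl _
  refine ⟨y, hext, fun i hi => ?_, fun i => ?_, ?_⟩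
  · rw [hsum]; exact hx0' i hi
  · rw [hsum]
    by_cases hi : i ∈ T
    · have h1 : ∑ j : alive x0, a i j * (x j - x0 j) = 0 := hx0' i hi
      rw [h1, abs_zero]
      exact mul_nonneg hC (gg_nonneg _ _ _)
    · rcases (en_nonneg a x0 i).lt_or_eq with h | h
      · have h1 := hxI1 i (Finset.mem_filter.mpr ⟨Finset.mem_univ i, hi, h⟩)
        exact h1
      · have hz : ∀ j ∈ alive x0, a i j = 0 := by
          intro j hj
          have h2 := (Finset.sum_eq_zero_iff_of_nonneg (fun j _ => sq_nonneg (a i j))).mp h.symm j hj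
          exact pow_eq_zero_iff (two_ne_zero) |>.mp h2
        have h1 : ∑ j : alive x0, a i j * (x j - x0 j) = 0 :=
          Finset.sum_eq_zero fun j _ => by rw [hz j j.2, zero_mul]
        rw [h1, abs_zero]
        exact mul_nonneg hC (gg_nonneg _ _ _)
  · have hcard : (alive y).card = (H167FK.Sys.alive x).card := by
      rw [← Finset.card_map (Function.Embedding.subtype (fun j => j ∈ alive x0))]
      congr 1
      ext j
      simp only [Finset.mem_map, Function.Embedding.coe_subtype]
      constructor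
      · intro hj
        have hj0 : j ∈ alive x0 := hext.alive_sub hx0 hj
        refine ⟨⟨j, hj0⟩, ?_, rfl⟩
        rw [mem_alive] at hj
        have h1 := hy1 ⟨j, hj0⟩
        unfold H167FK.Sys.alive
        rw [Finset.mem_filter]
        refine ⟨Finset.mem_univ _, ?_⟩
        rw [← h1]
        exact hj
      · rintro ⟨⟨j', hj'⟩, hj2, rfl⟩
        unfold H167FK.Sys.alive at hj2
        rw [Finset.mem_filter] at hj2
        rw [mem_alive]
        have h1 := hy1 ⟨j', hj'⟩
        rw [h1]
        exact hj2.2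
    rw [hcard]
    refine hxal.trans (le_of_eq ?_)
    have h1 : (Fintype.card (alive x0) : ℝ) = (alive x0).card := by
      rw [Fintype.card_coe]
    rw [h1]

end Pool.Agent.H86.KB
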