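import Pool.Agent.H86.KB.Phase

/-!
# Sequences of phases
-/

namespace Pool.Agent.H86.KB

open Finset Real

variable {I J : Type*} [Fintype I] [Fintype J]

theorem exp_three_half {M : ℝ} (hM : 3 ≤ M) : exp (-(M / 2)) ≤ 3 / 10 := by
  have h1 : exp (-(M / 2)) ≤ exp (-(3 / 2)) := exp_le_exp.mpr (by linarith)
  have h2 : (10 / 3 : ℝ) ≤ exp (3 / 2) := by
    have h3 := Real.exp_one_gt_d9
    have h4 := Real.add_one_le_exp (1 / 2 : ℝ)
    have h5 : exp (3 / 2 : ℝ) = exp 1 * exp (1 / 2) := by rw [← exp_add]; norm_num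
    rw [h5]
    nlinarith
  have h3 : exp (-(3 / 2) : ℝ) ≤ 3 / 10 := by
    rw [exp_neg, inv_le_comm₀ (exp_pos _) (by norm_num)]
    linarith
  linarith

open Classical in
/-- The change of a row in phase `k`. -/
noncomputable def chg (a : I → J → ℝ) (t : ℝ) (M : ℕ → ℝ) (T : ℕ → Finset I) (x : ℕ → J → ℝ)
    (i : I) (k : ℕ) : ℝ :=
  if i ∈ T k then 0 else C1 t (M k) * gg t (M k) (en a (x k) i)

/-- A sequence of phases. -/
theorem process (a : I → J → ℝ) (t : ℝ) (ht : 1 ≤ t) (a1 : ∀ i j, |a i j| ≤ 1)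
    (col : ∀ j, ∑ i, a i j ^ 2 ≤ t) (M N : ℕ → ℝ) (hM : ∀ k, 3 ≤ M k)
    (hN : ∀ k, N k * exp (-(M k / 2)) ≤ N (k + 1))
    (T : ℕ → Finset I) (hT : ∀ k, 50 * ((T k).card : ℝ) ≤ N k * exp (-(M k / 2)))
    (x0 : J → ℝ) (hx0 : ∀ j, |x0 j| ≤ 1) (h0 : ((alive x0).card : ℝ) ≤ N 0) :
    ∃ x : ℕ → J → ℝ, x 0 = x0 ∧ (∀ k j, |x k j| ≤ 1) ∧ (∀ k, ((alive (x k)).card : ℝ) ≤ N k) ∧
      (∀ k, Ext (x k) (x (k + 1))) ∧
      ∀ k i, |∑ j, a i j * (x (k + 1) j - x k j)| ≤ chg a t M T x i k := by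
  classical
  have key : ∀ k : ℕ, ∀ x : {x : J → ℝ // (∀ j, |x j| ≤ 1) ∧ ((alive x).card : ℝ) ≤ N k},
      ∃ y : {y : J → ℝ // (∀ j, |y j| ≤ 1) ∧ ((alive y).card : ℝ) ≤ N (k + 1)},
        Ext x.1 y.1 ∧ (∀ i ∈ T k, ∑ j, a i j * (y.1 j - x.1 j) = 0) ∧
        ∀ i, |∑ j, a i j * (y.1 j - x.1 j)| ≤ C1 t (M k) * gg t (M k) (en a x.1 i) := by
    rintro k ⟨x, hx, hxN⟩
    obtain ⟨y, h1, h2, h3, h4⟩ := phase a t ht a1 col x hx (M k) (by linarith [hM k]) (T k)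
    refine ⟨⟨y, h1.1, ?_⟩, h1, h2, h3⟩
    refine h4.trans (le_trans ?_ (hN k))
    have h5 := hT k
    have h6 := exp_three_half (hM k)
    have h7 : exp (-M k) = exp (-(M k / 2)) * exp (-(M k / 2)) := by
      rw [← exp_add]; congr 1; ring
    have h8 : 0 < exp (-(M k / 2)) := exp_pos _
    have h9 : (0 : ℝ) ≤ (alive x).card := Nat.cast_nonneg _
    rw [h7]
    have h10 : ((alive x).card : ℝ) * exp (-(M k / 2)) ≤ N k * exp (-(M k / 2)) :=
      mul_le_mul_of_nonneg_right hxN h8.le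
    have h11 : 0 ≤ ((alive x).card : ℝ) * exp (-(M k / 2)) := by positivity
    have h12 : ((alive x).card : ℝ) * exp (-(M k / 2)) * exp (-(M k / 2))
        ≤ ((alive x).card : ℝ) * exp (-(M k / 2)) * (3 / 10) :=
      mul_le_mul_of_nonneg_left h6 h11
    nlinarith
  choose F hF1 hF2 hF3 using key
  let s : (k : ℕ) → {x : J → ℝ // (∀ j, |x j| ≤ 1) ∧ ((alive x).card : ℝ) ≤ N k} :=
    fun k => Nat.rec (motive := fun k => {x : J → ℝ // (∀ j, |x j| ≤ 1) ∧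
      ((alive x).card : ℝ) ≤ N k}) ⟨x0, hx0, h0⟩ (fun k x => F k x) k
  refine ⟨fun k => (s k).1, rfl, fun k => (s k).2.1, fun k => (s k).2.2,
    fun k => hF1 k (s k), fun k i => ?_⟩
  unfold chg
  split_ifs with h
  · have h1 : ∑ j, a i j * ((s (k + 1)).1 j - (s k).1 j) = 0 := hF2 k (s k) i h
    rw [h1, abs_zero]
  · exact hF3 k (s k) i

theorem sum_chg (a : I → J → ℝ) (x : ℕ → J → ℝ) (c : I → ℕ → ℝ)
    (h : ∀ k i, |∑ j, a i j * (x (k + 1) j - x k j)| ≤ c i k) (K : ℕ) (i : I) :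
    |∑ j, a i j * (x K j - x 0 j)| ≤ ∑ k ∈ range K, c i k := by
  induction K with
  | zero => simp
  | succ K ih =>
    rw [Finset.sum_range_succ]
    have h1 : ∑ j, a i j * (x (K + 1) j - x 0 j)
        = ∑ j, a i j * (x K j - x 0 j) + ∑ j, a i j * (x (K + 1) j - x K j) := by
      rw [← Finset.sum_add_distrib]
      exact Finset.sum_congr rfl fun j _ => by ring
    rw [h1]
    refine (abs_add_le _ _).trans ?_
    linarith [h K i]

theorem ext_all {x : ℕ → J → ℝ} (h1 : ∀ k j, |x k j| ≤ 1) (h : ∀ k, Ext (x k) (x (k + 1))) :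
    ∀ K, Ext (x 0) (x K) := by
  intro K
  induction K with
  | zero => exact Ext.refl (h1 0)
  | succ K ih => exact ih.trans (h K)

theorem sign_of_alive {x : J → ℝ} (hx : ∀ j, |x j| ≤ 1) (h : ((alive x).card : ℝ) < 1) (j : J) :
    |x j| = 1 := by
  have h1 : (alive x).card < 1 := by exact_mod_cast h
  have h2 : alive x = ∅ := Finset.card_eq_zero.mp (by omega)
  refine le_antisymm (hx j) (not_lt.mp fun h3 => ?_)
  have : j ∈ alive x := mem_alive.mpr h3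
  rw [h2] at this
  exact absurd this (Finset.notMem_empty j)

end Pool.Agent.H86.KB
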