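import Pool.Agent.H86.KB.Lq

/-!
# Preparations for the profile theorem
-/

namespace Pool.Agent.H86.KB

open Finset Real

/-- The fourth root. -/
noncomputable def s4 (x : ℝ) : ℝ := Real.sqrt (Real.sqrt x)

theorem s4_nonneg (x : ℝ) : 0 ≤ s4 x := Real.sqrt_nonneg _

theorem s4_mono {x y : ℝ} (h : x ≤ y) : s4 x ≤ s4 y := Real.sqrt_le_sqrt (Real.sqrt_le_sqrt h)

theorem s4_mul {x y : ℝ} (hx : 0 ≤ x) : s4 (x * y) = s4 x * s4 y := by
  unfold s4
  rw [Real.sqrt_mul hx, Real.sqrt_mul (Real.sqrt_nonneg x)]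

theorem s4_pow_four {x : ℝ} (hx : 0 ≤ x) : s4 (x ^ 4) = x := by
  unfold s4
  rw [show x ^ 4 = (x ^ 2) ^ 2 by ring, Real.sqrt_sq (by positivity), Real.sqrt_sq hx]

theorem pow_s4 {x : ℝ} (hx : 0 ≤ x) : s4 x ^ 4 = x := by
  unfold s4
  rw [show Real.sqrt (Real.sqrt x) ^ 4 = (Real.sqrt (Real.sqrt x) ^ 2) ^ 2 by ring,
    Real.sq_sqrt (Real.sqrt_nonneg x), Real.sq_sqrt hx]

theorem s4_le {x c : ℝ} (hc : 0 ≤ c) (h : x ≤ c ^ 4) : s4 x ≤ c := by
  rw [← s4_pow_four hc]; exact s4_mono h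

theorem s4_one_le {x : ℝ} (h : 1 ≤ x) : 1 ≤ s4 x := by
  have := s4_mono h
  rwa [show (1 : ℝ) = 1 ^ 4 by norm_num, s4_pow_four (by norm_num)] at this

theorem s4_sixteen (k : ℕ) : s4 (16 ^ k) = 2 ^ k := by
  have : (16 : ℝ) ^ k = (2 ^ k) ^ 4 := by rw [← pow_mul, mul_comm k 4, pow_mul]; norm_num
  rw [this, s4_pow_four (by positivity)]

theorem s4_sixteen_inv (x : ℝ) (hx : 0 ≤ x) (k : ℕ) : s4 (x / 16 ^ k) = s4 x / 2 ^ k := by
  have h : x / 16 ^ k = x * (1 / 2 ^ k) ^ 4 := by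
    have h2 : (16 : ℝ) ^ k = (2 ^ k) ^ 4 := by rw [← pow_mul, mul_comm k 4, pow_mul]; norm_num
    rw [h2, div_pow, one_pow]; ring
  rw [h, s4_mul hx, s4_pow_four (by positivity)]; ring

theorem C1_one_le (M : ℝ) : C1 1 M ≤ 520 * s4 (960 * M) := by
  unfold C1 s4
  refine (min_le_left _ _).trans (le_of_eq ?_)
  rw [Real.sqrt_one, mul_one]

theorem gg_one_le (M r : ℝ) : gg 1 M r ≤ s4 (960 * M * r) := by
  unfold gg s4
  refine (min_le_right _ _).trans (le_of_eq ?_)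
  rw [div_one]

theorem not_top {d : ℕ} {X : ℝ} {i : Fin d} (h : i ∉ top d X) : X < (i : ℝ) + 1 := by
  unfold top at h
  rw [Finset.mem_filter] at h
  push Not at h
  exact h (Finset.mem_univ i)

theorem exp_four : (50 : ℝ) ≤ exp 4 := by
  have h1 := Real.exp_one_gt_d9
  have h3 : exp 4 = exp 1 ^ 4 := by rw [← exp_nat_mul]; norm_num
  rw [h3]
  have h4 : (2.7 : ℝ) ^ 4 ≤ exp 1 ^ 4 := by
    apply pow_le_pow_left₀ (by norm_num)
    linarith
  refine le_trans ?_ h4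
  norm_num

/-- The rank of a row which is not kept. -/
theorem log_of_not_top {d : ℕ} {z : ℝ} {i : Fin d} (h : i ∉ top d (exp z / 50)) :
    z ≤ Real.log ((i : ℝ) + 1) + 4 := by
  have h1 := not_top h
  have h2 : exp (z - 4) ≤ exp z / 50 := by
    rw [exp_sub]
    exact div_le_div_of_nonneg_left (exp_pos _).le (by norm_num) exp_four
  have h3 : exp (z - 4) ≤ (i : ℝ) + 1 := h2.trans h1.le
  have h4 := Real.log_le_log (exp_pos _) h3
  rw [Real.log_exp] at h4
  linarith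

/-- Halving sums. -/
theorem halving (y : ℝ) (hy : 0 ≤ y) (R : ℕ) : ∀ x : ℝ, 0 ≤ x →
    ∑ j ∈ range R, (if x / 2 ^ j ≤ y then x / 2 ^ j else 0) ≤ 2 * min x y := by
  induction R with
  | zero => intro x hx; simp only [Finset.range_zero, Finset.sum_empty]; positivity
  | succ R ih =>
    intro x hx
    rw [Finset.sum_range_succ']
    have h1 := ih (x / 2) (by positivity)
    have h2 : ∀ j : ℕ, x / 2 ^ (j + 1) = x / 2 / 2 ^ j := fun j => by rw [pow_succ]; field_simp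
    simp only [h2, pow_zero, div_one]
    rcases le_or_gt x y with h | h
    · rw [if_pos h, min_eq_left h]
      have h3 : min (x / 2) y ≤ x / 2 := min_le_left _ _
      linarith
    · rw [if_neg (not_le.mpr h), add_zero]
      refine h1.trans ?_
      have h3 : min (x / 2) y ≤ min x y := min_le_min (by linarith) le_rfl
      linarith

theorem pow_sum (k : ℕ) : ∑ j ∈ range k, (2 : ℝ) ^ j ≤ 2 ^ k := by
  have h : ∑ j ∈ range k, (2 : ℝ) ^ j = 2 ^ k - 1 := by
    induction k with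
    | zero => norm_num
    | succ k ih => rw [Finset.sum_range_succ, ih, pow_succ]; ring
  rw [h]; linarith

theorem quarter_sum (k : ℕ) : ∑ j ∈ range k, (1 / 4 : ℝ) ^ j ≤ 4 / 3 := by
  have h : ∑ j ∈ range k, (1 / 4 : ℝ) ^ j = 4 / 3 * (1 - (1 / 4) ^ k) := by
    induction k with
    | zero => norm_num
    | succ k ih => rw [Finset.sum_range_succ, ih, pow_succ]; ring
  rw [h]
  have : (0 : ℝ) < (1 / 4) ^ k := by positivity
  linarith

theorem sixteen_ge (k : ℕ) : (1 : ℝ) + 5 * k ≤ 16 ^ k := by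
  induction k with
  | zero => norm_num
  | succ k ih =>
    rw [pow_succ]; push_cast
    have : (0 : ℝ) ≤ k := Nat.cast_nonneg k
    nlinarith

/-- The sum of the numbers of bad rows. -/
theorem bad_sum (k0 Q : ℕ) : ∑ k ∈ Finset.Ico k0 Q, (4096 : ℝ) ^ k * exp (-(4 * 16 ^ k))
    ≤ 2 * exp (-(2 * 16 ^ k0)) := by
  have h1 : ∀ k ∈ Finset.Ico k0 Q, (4096 : ℝ) ^ k * exp (-(4 * 16 ^ k))
      ≤ (1 / 2) ^ k * exp (-(2 * 16 ^ k0)) := by
    intro k hk
    have hk0 : k0 ≤ k := (Finset.mem_Ico.mp hk).1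
    have h2 : (8192 : ℝ) ^ k ≤ exp (2 * 16 ^ k) := by
      have h3 : (8192 : ℝ) ≤ exp 10 := by
        have h1 := Real.exp_one_gt_d9
        have h3 : exp 10 = exp 1 ^ 10 := by rw [← exp_nat_mul]; norm_num
        rw [h3]
        have h4 : (2.7 : ℝ) ^ 10 ≤ exp 1 ^ 10 := by
          apply pow_le_pow_left₀ (by norm_num)
          linarith
        refine le_trans ?_ h4
        norm_num
      calc (8192 : ℝ) ^ k ≤ exp 10 ^ k := pow_le_pow_left₀ (by norm_num) h3 k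
        _ = exp (k * 10) := by rw [← exp_nat_mul]
        _ ≤ exp (2 * 16 ^ k) := by
            apply exp_le_exp.mpr
            have := sixteen_ge k
            linarith
    have h3 : (4096 : ℝ) ^ k = (1 / 2) ^ k * 8192 ^ k := by rw [← mul_pow]; norm_num
    have h4 : (16 : ℝ) ^ k0 ≤ 16 ^ k := pow_le_pow_right₀ (by norm_num) hk0
    rw [h3, mul_assoc]
    apply mul_le_mul_of_nonneg_left _ (by positivity)
    calc (8192 : ℝ) ^ k * exp (-(4 * 16 ^ k)) ≤ exp (2 * 16 ^ k) * exp (-(4 * 16 ^ k)) :=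
          mul_le_mul_of_nonneg_right h2 (exp_pos _).le
      _ = exp (-(2 * 16 ^ k)) := by rw [← exp_add]; congr 1; ring
      _ ≤ exp (-(2 * 16 ^ k0)) := exp_le_exp.mpr (by linarith)
  refine (Finset.sum_le_sum h1).trans ?_
  rw [← Finset.sum_mul]
  apply mul_le_mul_of_nonneg_right _ (exp_pos _).le
  have h5 : ∑ k ∈ Finset.Ico k0 Q, (1 / 2 : ℝ) ^ k ≤ ∑ k ∈ range Q, (1 / 2 : ℝ) ^ k := by
    rw [Finset.range_eq_Ico]
    exact Finset.sum_le_sum_of_subset_of_nonneg (Finset.Ico_subset_Ico_left (Nat.zero_le _))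
      (fun _ _ _ => by positivity)
  refine h5.trans ?_
  have h : ∑ k ∈ range Q, (1 / 2 : ℝ) ^ k = 2 - 2 * (1 / 2) ^ Q := by
    induction Q with
    | zero => norm_num
    | succ Q ih =>
      have h6 : ∑ k ∈ range Q, (1 / 2 : ℝ) ^ k = 2 - 2 * (1 / 2) ^ Q := by
        clear ih h1 h5
        induction Q with
        | zero => norm_num
        | succ Q ih => rw [Finset.sum_range_succ, ih, pow_succ]; ring
      rw [Finset.sum_range_succ, h6, pow_succ]; ring
  rw [h]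
  have : (0 : ℝ) < (1 / 2) ^ Q := by positivity
  linarith

/-- Markov's inequality for the fourth powers. -/
theorem count_bad {d : ℕ} {J : Type*} [Fintype J] (a : Fin d → J → ℝ)
    (col : ∀ j, ∑ i, a i j ^ 2 ≤ 1) (x : J → ℝ) (N M c : ℝ) (hM : 0 ≤ M) (hc : 0 < c)
    (hN : ((alive x).card : ℝ) ≤ N) (S : Finset (Fin d)) (hS : ∀ i ∈ S, c < gg 1 M (en a x i)) :
    (S.card : ℝ) * c ^ 4 ≤ 960 * M * N := by
  have h1 : ∀ i ∈ S, c ^ 4 ≤ 960 * M * en a x i := by
    intro i hi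
    have h2 := gg_pow (t := 1) (M := M) le_rfl hM (en_nonneg a x i)
    rw [div_one] at h2
    exact (pow_le_pow_left₀ hc.le (hS i hi).le 4).trans h2
  have h2 := Finset.sum_le_sum h1
  rw [Finset.sum_const, nsmul_eq_mul, ← Finset.mul_sum] at h2
  have h3 := en_sum a 1 col x S
  rw [one_mul] at h3
  refine h2.trans ?_
  exact mul_le_mul_of_nonneg_left (h3.trans hN) (by positivity)

theorem count_en {d : ℕ} {J : Type*} [Fintype J] (a : Fin d → J → ℝ)
    (col : ∀ j, ∑ i, a i j ^ 2 ≤ 1) (x : J → ℝ) (N κ : ℝ)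
    (hN : ((alive x).card : ℝ) ≤ N) (S : Finset (Fin d)) (hS : ∀ i ∈ S, κ < en a x i) :
    (S.card : ℝ) * κ ≤ N := by
  have h2 := Finset.sum_le_sum fun i hi => (hS i hi).le
  rw [Finset.sum_const, nsmul_eq_mul] at h2
  have h3 := en_sum a 1 col x S
  rw [one_mul] at h3
  exact h2.trans (h3.trans hN)

end Pool.Agent.H86.KB
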