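import Pool.Agent.H86.KB.Prof0

/-!
# The cost of a phase as a function of its length
-/

namespace Pool.Agent.H86.KB

open Finset Real

/-- The logarithmic factor. -/
noncomputable def lgf (t : ℝ) : ℝ := (1 + Real.log t) ^ (3 / 2 : ℝ)

theorem one_le_lgf {t : ℝ} (ht : 1 ≤ t) : 1 ≤ lgf t :=
  Real.one_le_rpow (by linarith [Real.log_nonneg ht]) (by norm_num)

theorem C1_eq (t M : ℝ) : C1 t M = min (520 * s4 (960 * M) * Real.sqrt t)
    (520 * Real.sqrt t + 753 * Real.sqrt (960 * M) * lgf t) := rfl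

theorem C1_mono {t M M' : ℝ} (ht : 1 ≤ t) (h : M ≤ M') : C1 t M ≤ C1 t M' := by
  have h1 := one_le_lgf ht
  have h2 : s4 (960 * M) ≤ s4 (960 * M') := s4_mono (by linarith)
  have h3 : Real.sqrt (960 * M) ≤ Real.sqrt (960 * M') := Real.sqrt_le_sqrt (by linarith)
  have h4 := Real.sqrt_nonneg t
  rw [C1_eq, C1_eq]
  apply min_le_min
  · exact mul_le_mul_of_nonneg_right (by linarith) h4
  · have : Real.sqrt (960 * M) * lgf t ≤ Real.sqrt (960 * M') * lgf t :=
      mul_le_mul_of_nonneg_right h3 (by linarith)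
    linarith

theorem s4_scale (M : ℝ) : s4 (960 * (16 * M)) = 2 * s4 (960 * M) := by
  have h1 : 960 * (16 * M) = 2 ^ 4 * (960 * M) := by ring
  rw [h1, s4_mul (by norm_num), s4_pow_four (by norm_num)]

theorem sqrt_scale (M : ℝ) :
    Real.sqrt (960 * (16 * M)) = 4 * Real.sqrt (960 * M) := by
  have h1 : 960 * (16 * M) = 4 ^ 2 * (960 * M) := by ring
  rw [h1, Real.sqrt_mul (by norm_num), Real.sqrt_sq (by norm_num)]

theorem C1_sixteen {t M : ℝ} (ht : 1 ≤ t) : C1 t (16 * M) ≤ 4 * C1 t M := by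
  have h1 := one_le_lgf ht
  have h4 := Real.sqrt_nonneg t
  have h5 := s4_nonneg (960 * M)
  have h6 := Real.sqrt_nonneg (960 * M)
  rw [C1_eq, C1_eq, s4_scale, sqrt_scale, mul_min_of_nonneg _ _ (by norm_num : (0 : ℝ) ≤ 4)]
  have h7 : 0 ≤ s4 (960 * M) * Real.sqrt t := by positivity
  apply min_le_min
  · linarith
  · linarith

/-- From this length on the cost is doubled when the length is multiplied by `16`. -/
noncomputable def mu (t : ℝ) : ℝ := max 1 (t / lgf t ^ 2)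

theorem one_le_mu (t : ℝ) : 1 ≤ mu t := le_max_left _ _

theorem C1_double {t M : ℝ} (ht : 1 ≤ t) (hM : mu t ≤ M) : 2 * C1 t M ≤ C1 t (16 * M) := by
  have h1 := one_le_lgf ht
  have h4 := Real.sqrt_nonneg t
  have hM0 : 0 ≤ M := by linarith [one_le_mu t]
  have h5 := s4_nonneg (960 * M)
  have h6 := Real.sqrt_nonneg (960 * M)
  have h7 : Real.sqrt t ≤ Real.sqrt (960 * M) * lgf t := by
    have h8 : t / lgf t ^ 2 ≤ 960 * M := by
      have := (le_max_right 1 (t / lgf t ^ 2)).trans hM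
      linarith
    have h9 : t ≤ 960 * M * lgf t ^ 2 := by
      rwa [div_le_iff₀ (by positivity)] at h8
    calc Real.sqrt t ≤ Real.sqrt (960 * M * lgf t ^ 2) := Real.sqrt_le_sqrt h9
      _ = Real.sqrt (960 * M) * lgf t := by
          rw [Real.sqrt_mul (by positivity), Real.sqrt_sq (by linarith)]
  rw [C1_eq, C1_eq, s4_scale, sqrt_scale, mul_min_of_nonneg _ _ (by norm_num : (0 : ℝ) ≤ 2)]
  apply min_le_min
  · linarith
  · linarith

theorem C1_le (t M : ℝ) : C1 t M ≤ 520 * s4 (960 * M) * Real.sqrt t := min_le_left _ _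

theorem C1_ge {t M : ℝ} (ht : 1 ≤ t) (hM : 1 ≤ M) : 520 * Real.sqrt t ≤ C1 t M := by
  have h1 := one_le_lgf ht
  have h4 := Real.sqrt_nonneg t
  have h5 : 1 ≤ s4 (960 * M) := s4_one_le (by linarith)
  have h6 := Real.sqrt_nonneg (960 * M)
  rw [C1_eq]
  apply le_min
  · have : 1 * Real.sqrt t ≤ s4 (960 * M) * Real.sqrt t := mul_le_mul_of_nonneg_right h5 h4
    linarith
  · have : 0 ≤ Real.sqrt (960 * M) * lgf t := by positivity
    linarith

theorem C1_mu {t : ℝ} (ht : 1 ≤ t) : C1 t (120 * mu t) ≤ 260000 * Real.sqrt t := by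
  have h1 := one_le_lgf ht
  have h4 := Real.sqrt_nonneg t
  rcases le_total (t / lgf t ^ 2) 1 with h | h
  · have h2 : mu t = 1 := max_eq_left h
    rw [h2]
    refine (C1_le _ _).trans ?_
    have h3 : s4 (960 * (120 * 1)) ≤ 19 := s4_le (by norm_num) (by norm_num)
    have h5 : s4 (960 * (120 * 1)) * Real.sqrt t ≤ 19 * Real.sqrt t :=
      mul_le_mul_of_nonneg_right h3 h4
    linarith
  · have h2 : mu t = t / lgf t ^ 2 := max_eq_right h
    rw [h2, C1_eq]
    refine (min_le_right _ _).trans ?_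
    have h3 : Real.sqrt (960 * (120 * (t / lgf t ^ 2))) * lgf t ≤ 340 * Real.sqrt t := by
      have h5 : 960 * (120 * (t / lgf t ^ 2)) ≤ (340 / lgf t) ^ 2 * t := by
        have : (340 / lgf t) ^ 2 * t = 115600 * (t / lgf t ^ 2) := by ring
        rw [this]
        have : 0 ≤ t / lgf t ^ 2 := by positivity
        linarith
      have h6 := Real.sqrt_le_sqrt h5
      rw [Real.sqrt_mul (show (0 : ℝ) ≤ (340 / lgf t) ^ 2 by positivity),
        Real.sqrt_sq (show (0 : ℝ) ≤ 340 / lgf t by positivity)] at h6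
      have h7 := mul_le_mul_of_nonneg_right h6 (show 0 ≤ lgf t by linarith)
      refine h7.trans (le_of_eq ?_)
      field_simp
    linarith

/-- `C1 t (256 * M) ≤ 16 * C1 t M` and the like. -/
theorem C1_256 {t M M' : ℝ} (ht : 1 ≤ t) (h : M' ≤ 256 * M) :
    C1 t M' ≤ 16 * C1 t M := by
  have h1 : C1 t M' ≤ C1 t (16 * (16 * M)) := C1_mono ht (by linarith)
  have h2 := C1_sixteen (M := 16 * M) ht
  have h3 := C1_sixteen (M := M) ht
  linarith

theorem C1_pow {t M : ℝ} (ht : 1 ≤ t) (k : ℕ) :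
    C1 t (M * 16 ^ k) ≤ 4 ^ k * C1 t M := by
  induction k with
  | zero => simp
  | succ k ih =>
    have h1 : M * 16 ^ (k + 1) = 16 * (M * 16 ^ k) := by ring
    rw [h1]
    have h2 := C1_sixteen (M := M * 16 ^ k) ht
    have h3 : (4 : ℝ) ^ (k + 1) * C1 t M = 4 * (4 ^ k * C1 t M) := by ring
    rw [h3]
    linarith

/-- Sums of increasing geometric type. -/
theorem geo_up (c : ℕ → ℝ) (hc : ∀ k, 0 ≤ c k) (h : ∀ k, 2 * c k ≤ c (k + 1)) (q : ℕ) :
    ∑ k ∈ range (q + 1), c k ≤ 2 * c q := by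
  induction q with
  | zero => simp; linarith [hc 0]
  | succ q ih =>
    rw [Finset.sum_range_succ]
    linarith [h q]

/-- Sums of decreasing geometric type, over some of the indices. -/
theorem geo_down (c e : ℕ → ℝ) (Y : ℝ) (hY : 0 ≤ Y) (R : ℕ) (hc : ∀ j, j < R → 0 ≤ c j)
    (h : ∀ j, j + 1 < R → 2 * c (j + 1) ≤ c j)
    (he : ∀ j, j < R → e j = 0 ∨ (e j ≤ c j ∧ c j ≤ Y)) :
    ∑ j ∈ range R, e j ≤ 2 * Y := by
  have key : ∀ r : ℕ, r < R → ∑ j ∈ range (r + 1), e j ≤ 0 ∨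
      ∑ j ∈ range (r + 1), e j + c r ≤ 2 * Y := by
    intro r
    induction r with
    | zero =>
      intro hr
      rw [Finset.sum_range_one]
      rcases he 0 hr with h0 | ⟨h0, h1⟩
      · left; rw [h0]
      · right; linarith
    | succ r ih =>
      intro hr
      rw [Finset.sum_range_succ]
      have h2 := h r hr
      have h3 := hc (r + 1) hr
      rcases ih (by omega) with h4 | h4
      · rcases he (r + 1) hr with h0 | ⟨h0, h1⟩
        · left; rw [h0]; linarith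
        · right; linarith
      · rcases he (r + 1) hr with h0 | ⟨h0, h1⟩
        · right; rw [h0]; linarith
        · right; linarith
  rcases Nat.eq_zero_or_pos R with hR | hR
  · rw [hR, Finset.sum_range_zero]; linarith
  · obtain ⟨r, rfl⟩ := Nat.exists_eq_succ_of_ne_zero (show R ≠ 0 by omega)
    rcases key r (by omega) with h4 | h4
    · have h5 : ∑ j ∈ range (r + 1), e j ≤ 0 := h4
      have : ∑ j ∈ range r.succ, e j ≤ 0 := h5
      linarith
    · have h5 := hc r (by omega)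
      have : ∑ j ∈ range r.succ, e j + c r ≤ 2 * Y := h4
      linarith

theorem sixteen_ge' (k : ℕ) : (1 : ℝ) + 15 * k ≤ 16 ^ k := by
  induction k with
  | zero => norm_num
  | succ k ih =>
    rw [pow_succ]; push_cast
    have : (0 : ℝ) ≤ k := Nat.cast_nonneg k
    nlinarith

/-- One term of the number of bad rows. -/
theorem bad_term {m : ℝ} (hm : 1 ≤ m) {k : ℕ} (hk : 1 ≤ k) :
    m * 65536 ^ k * exp (-(4 * m * (16 ^ k - 1))) ≤ (1 / 2) ^ k * exp (-(2 * m * 16 ^ k)) := by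
  have h16 : (16 : ℝ) ≤ 16 ^ k := by
    calc (16 : ℝ) = 16 ^ 1 := (pow_one _).symm
      _ ≤ 16 ^ k := pow_le_pow_right₀ (by norm_num) hk
  have h1 : (131072 : ℝ) ^ k ≤ exp (15 * k) := by
    have h3 : (131072 : ℝ) ≤ exp 15 := by
      have h1 := Real.exp_one_gt_d9
      have h3 : exp 15 = exp 1 ^ 15 := by rw [← exp_nat_mul]; norm_num
      rw [h3]
      have h4 : (2.7 : ℝ) ^ 15 ≤ exp 1 ^ 15 := by
        apply pow_le_pow_left₀ (by norm_num)
        linarith
      refine le_trans ?_ h4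
      norm_num
    calc (131072 : ℝ) ^ k ≤ exp 15 ^ k := pow_le_pow_left₀ (by norm_num) h3 k
      _ = exp (k * 15) := by rw [← exp_nat_mul]
      _ = exp (15 * k) := by rw [mul_comm]
  have h2 : m ≤ exp m := by linarith [Real.add_one_le_exp m]
  have h3 : m * 131072 ^ k ≤ exp (2 * m * 16 ^ k - 4 * m) := by
    calc m * 131072 ^ k ≤ exp m * exp (15 * k) := mul_le_mul h2 h1 (by positivity) (exp_pos _).le
      _ = exp (m + 15 * k) := by rw [← exp_add]
      _ ≤ exp (2 * m * 16 ^ k - 4 * m) := by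
          apply exp_le_exp.mpr
          have h4 := sixteen_ge' k
          nlinarith
  have h4 : (65536 : ℝ) ^ k = (1 / 2) ^ k * 131072 ^ k := by rw [← mul_pow]; norm_num
  calc m * 65536 ^ k * exp (-(4 * m * (16 ^ k - 1)))
      = (1 / 2) ^ k * (m * 131072 ^ k * exp (-(4 * m * (16 ^ k - 1)))) := by rw [h4]; ring
    _ ≤ (1 / 2) ^ k * (exp (2 * m * 16 ^ k - 4 * m) * exp (-(4 * m * (16 ^ k - 1)))) := by
        apply mul_le_mul_of_nonneg_left _ (by positivity)
        exact mul_le_mul_of_nonneg_right h3 (exp_pos _).le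
    _ = (1 / 2) ^ k * exp (-(2 * m * 16 ^ k)) := by
        rw [← exp_add]; congr 2; ring

theorem half_sum (k0 Q : ℕ) : ∑ k ∈ Finset.Ico k0 Q, (1 / 2 : ℝ) ^ k ≤ 2 := by
  have h5 : ∑ k ∈ Finset.Ico k0 Q, (1 / 2 : ℝ) ^ k ≤ ∑ k ∈ range Q, (1 / 2 : ℝ) ^ k := by
    rw [Finset.range_eq_Ico]
    exact Finset.sum_le_sum_of_subset_of_nonneg (Finset.Ico_subset_Ico_left (Nat.zero_le _))
      (fun _ _ _ => by positivity)
  refine h5.trans ?_
  have h : ∑ k ∈ range Q, (1 / 2 : ℝ) ^ k = 2 - 2 * (1 / 2) ^ Q := by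
    clear h5
    induction Q with
    | zero => norm_num
    | succ Q ih => rw [Finset.sum_range_succ, ih, pow_succ]; ring
  rw [h]
  have : (0 : ℝ) < (1 / 2) ^ Q := by positivity
  linarith

/-- The sum of the numbers of bad rows. -/
theorem bad_sum' {m : ℝ} (hm : 1 ≤ m) (k0 Q : ℕ) (hk : 1 ≤ k0) :
    ∑ k ∈ Finset.Ico k0 Q, m * 65536 ^ k * exp (-(4 * m * (16 ^ k - 1)))
      ≤ 2 * exp (-(2 * m * 16 ^ k0)) := by
  have h1 : ∀ k ∈ Finset.Ico k0 Q, m * 65536 ^ k * exp (-(4 * m * (16 ^ k - 1)))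
      ≤ (1 / 2) ^ k * exp (-(2 * m * 16 ^ k0)) := by
    intro k hk'
    have hk0 : k0 ≤ k := (Finset.mem_Ico.mp hk').1
    refine (bad_term hm (hk.trans hk0)).trans ?_
    apply mul_le_mul_of_nonneg_left _ (by positivity)
    apply exp_le_exp.mpr
    have h4 : (16 : ℝ) ^ k0 ≤ 16 ^ k := pow_le_pow_right₀ (by norm_num) hk0
    nlinarith
  refine (Finset.sum_le_sum h1).trans ?_
  rw [← Finset.sum_mul]
  exact mul_le_mul_of_nonneg_right (half_sum k0 Q) (exp_pos _).le

/-- Markov's inequality for the fourth powers. -/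
theorem count_bad' {d : ℕ} {J : Type*} [Fintype J] (a : Fin d → J → ℝ) (t : ℝ) (ht : 1 ≤ t)
    (col : ∀ j, ∑ i, a i j ^ 2 ≤ t) (x : J → ℝ) (N M c : ℝ) (hM : 0 ≤ M) (hc : 0 < c)
    (hN : ((alive x).card : ℝ) ≤ N) (S : Finset (Fin d)) (hS : ∀ i ∈ S, c < gg t M (en a x i)) :
    (S.card : ℝ) * c ^ 4 ≤ 960 * M * N := by
  have h1 : ∀ i ∈ S, c ^ 4 ≤ 960 * M * en a x i / t := by
    intro i hi
    have h2 := gg_pow (t := t) (M := M) ht hM (en_nonneg a x i)
    exact (pow_le_pow_left₀ hc.le (hS i hi).le 4).trans h2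
  have h2 := Finset.sum_le_sum h1
  rw [Finset.sum_const, nsmul_eq_mul, ← Finset.sum_div, ← Finset.mul_sum] at h2
  have h3 := en_sum a t col x S
  refine h2.trans ?_
  rw [div_le_iff₀ (by linarith)]
  have h4 : t * ((alive x).card : ℝ) ≤ t * N := mul_le_mul_of_nonneg_left hN (by linarith)
  have h5 := mul_le_mul_of_nonneg_left (h3.trans h4) (show 0 ≤ 960 * M by positivity)
  linarith

theorem count_en' {d : ℕ} {J : Type*} [Fintype J] (a : Fin d → J → ℝ) (t : ℝ) (ht : 1 ≤ t)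
    (col : ∀ j, ∑ i, a i j ^ 2 ≤ t) (x : J → ℝ) (N κ : ℝ)
    (hN : ((alive x).card : ℝ) ≤ N) (S : Finset (Fin d)) (hS : ∀ i ∈ S, κ < en a x i / t) :
    (S.card : ℝ) * κ ≤ N := by
  have h2 := Finset.sum_le_sum fun i hi => (hS i hi).le
  rw [Finset.sum_const, nsmul_eq_mul, ← Finset.sum_div] at h2
  have h3 := en_sum a t col x S
  refine h2.trans ?_
  rw [div_le_iff₀ (by linarith)]
  have h4 : t * ((alive x).card : ℝ) ≤ t * N := mul_le_mul_of_nonneg_left hN (by linarith)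
  linarith

theorem gg_le' (t M r : ℝ) : gg t M r ≤ s4 (960 * M * (r / t)) := by
  unfold gg s4
  refine (min_le_right _ _).trans (le_of_eq ?_)
  congr 3
  ring

end Pool.Agent.H86.KB
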