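import Pool.Agent.H86.KB.Prof1

/-!
# The two sequences of phases

In the first sequence the lengths of the phases grow, in the second one they shrink.
-/

namespace Pool.Agent.H86.KB

open Finset Real

theorem chg_le {I J : Type*} [Fintype I] [Fintype J] (a : I → J → ℝ) (t : ℝ) (ht : 1 ≤ t)
    (M : ℕ → ℝ) (T : ℕ → Finset I) (x : ℕ → J → ℝ) (i : I) (k : ℕ) :
    chg a t M T x i k ≤ C1 t (M k) := by
  unfold chg
  have h := C1_nonneg (M := M k) ht
  split_ifs
  · exact h
  · calc C1 t (M k) * gg t (M k) (en a (x k) i) ≤ C1 t (M k) * 1 :=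
          mul_le_mul_of_nonneg_left (gg_le_one _ _ _) h
      _ = C1 t (M k) := mul_one _

theorem chg_le_gg {I J : Type*} [Fintype I] [Fintype J] (a : I → J → ℝ) (t : ℝ) (ht : 1 ≤ t)
    (M : ℕ → ℝ) (T : ℕ → Finset I) (x : ℕ → J → ℝ) (i : I) (k : ℕ) :
    chg a t M T x i k ≤ C1 t (M k) * gg t (M k) (en a (x k) i) := by
  unfold chg
  have h := C1_nonneg (M := M k) ht
  split_ifs
  · exact mul_nonneg h (gg_nonneg _ _ _)
  · exact le_rfl

theorem chg_zero {I J : Type*} [Fintype I] [Fintype J] (a : I → J → ℝ) (t : ℝ)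
    (M : ℕ → ℝ) (T : ℕ → Finset I) (x : ℕ → J → ℝ) (i : I) (k : ℕ) (h : i ∈ T k) :
    chg a t M T x i k = 0 := by
  unfold chg
  rw [if_pos h]

/-- The first sequence of phases. -/
theorem asc {d : ℕ} {J : Type*} [Fintype J] (a : Fin d → J → ℝ) (t : ℝ) (ht : 1 ≤ t)
    (a1 : ∀ i j, |a i j| ≤ 1) (col : ∀ j, ∑ i, a i j ^ 2 ≤ t) (L : ℝ)
    (x0 : J → ℝ) (hx0 : ∀ j, |x0 j| ≤ 1) (h0 : ((alive x0).card : ℝ) ≤ exp L) (Q : ℕ)
    (hQ : ∀ k, k < Q → 480 * mu t * 16 ^ k ≤ L) :
    ∃ x1 : J → ℝ, Ext x0 x1 ∧ ((alive x1).card : ℝ) ≤ exp (L - 4 * mu t * (16 ^ Q - 1)) ∧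
      (∀ i : Fin d, |∑ j, a i j * (x1 j - x0 j)| ≤ 8 * C1 t (1 + Real.log ((i : ℝ) + 1))) ∧
      (∀ i, |∑ j, a i j * (x1 j - x0 j)| ≤ 2 * C1 t L) ∧
      (Q = 0 → ∀ i, ∑ j, a i j * (x1 j - x0 j) = 0) ∧
      ∀ k0, 1 ≤ k0 → k0 ≤ Q → ∃ B : Finset (Fin d),
        (B.card : ℝ) ≤ 230400 * exp (L - 2 * mu t * 16 ^ k0) ∧
        ∀ i, i ∉ B → |∑ j, a i j * (x1 j - x0 j)|
          ≤ 2 * C1 t (120 * mu t * 16 ^ (k0 - 1)) + 2 * C1 t (120 * mu t) := by
  classical
  set m := mu t with hm
  have hm1 : 1 ≤ m := one_le_mu t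
  let M : ℕ → ℝ := fun k => 120 * m * 16 ^ k
  let N : ℕ → ℝ := fun k => exp (L - 4 * m * (16 ^ k - 1))
  have h16 : ∀ k : ℕ, (1 : ℝ) ≤ 16 ^ k := fun k => one_le_pow₀ (by norm_num)
  have hM1 : ∀ k, m ≤ M k := fun k => by
    have := h16 k
    show m ≤ 120 * m * 16 ^ k
    nlinarith
  have hMs : ∀ k, M (k + 1) = 16 * M k := fun k => by
    show 120 * m * 16 ^ (k + 1) = 16 * (120 * m * 16 ^ k)
    ring
  have hNM : ∀ k, N k * exp (-(M k / 2)) = N (k + 1) := by
    intro k
    simp only [N, M]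
    rw [← exp_add]
    congr 1
    rw [pow_succ]; ring
  let T : ℕ → Finset (Fin d) := fun k => top d (N k * exp (-(M k / 2)) / 50)
  obtain ⟨x, hx0', hx1, hxN, hxE, hxc⟩ := process a t ht a1 col M N
    (fun k => by have := h16 k; show 3 ≤ 120 * m * 16 ^ k; nlinarith)
    (fun k => (hNM k).le) T (fun k => by
      have h1 : 0 < N k * exp (-(M k / 2)) := mul_pos (exp_pos _) (exp_pos _)
      have := card_top d (X := N k * exp (-(M k / 2)) / 50) (by positivity)
      show 50 * ((top d (N k * exp (-(M k / 2)) / 50)).card : ℝ) ≤ _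
      linarith) x0 hx0 (by simp only [N]; simpa using h0)
  have hsum := sum_chg a x (chg a t M T x) hxc
  have hext := ext_all hx1 hxE
  rw [hx0'] at hext
  have hup : ∀ q, ∑ k ∈ range (q + 1), C1 t (M k) ≤ 2 * C1 t (M q) :=
    geo_up (fun k => C1 t (M k)) (fun k => C1_nonneg ht) (fun k => by
      show 2 * C1 t (M k) ≤ C1 t (M (k + 1))
      rw [hMs]
      exact C1_double ht (hM1 k))
  have hL2 : ∀ i, |∑ j, a i j * (x Q j - x0 j)| ≤ 2 * C1 t L := by
    intro i
    have h1 := hsum Q i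
    rw [hx0'] at h1
    refine h1.trans ?_
    rcases Nat.eq_zero_or_pos Q with h2 | h2
    · rw [h2, Finset.sum_range_zero]
      have := C1_nonneg (M := L) ht
      positivity
    · obtain ⟨q, rfl⟩ := Nat.exists_eq_succ_of_ne_zero (show Q ≠ 0 by omega)
      refine (Finset.sum_le_sum fun k _ => chg_le a t ht M T x i k).trans ?_
      refine (hup q).trans ?_
      have h3 := hQ q (by omega)
      have h4 : M q ≤ L := by
        show 120 * m * 16 ^ q ≤ L
        have : 0 < m * 16 ^ q := by positivity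
        linarith
      linarith [C1_mono (t := t) ht h4]
  refine ⟨x Q, hext Q, hxN Q, fun i => ?_, hL2, fun h => ?_, fun k0 hk1 hk2 => ?_⟩
  · -- graded bound
    have hlog : 0 ≤ Real.log ((i : ℝ) + 1) := Real.log_nonneg (by
      have : (0 : ℝ) ≤ (i : ℝ) := Nat.cast_nonneg _
      linarith)
    by_cases hfr : ∀ k, k < Q → i ∈ T k
    · have h1 := hsum Q i
      rw [hx0', Finset.sum_eq_zero (fun k hk => chg_zero a t M T x i k
        (hfr k (Finset.mem_range.mp hk)))] at h1
      have := C1_nonneg (M := 1 + Real.log ((i : ℝ) + 1)) ht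
      linarith
    · push Not at hfr
      obtain ⟨k, hk, hik⟩ := hfr
      have h2 : i ∉ top d (exp (L - 4 * m * (16 ^ (k + 1) - 1)) / 50) := by
        have : T k = top d (N (k + 1) / 50) := by simp only [T]; rw [hNM]
        rw [this] at hik
        exact hik
      have h3 := log_of_not_top h2
      have h4 := hQ k hk
      have h5 : 4 * m * (16 ^ (k + 1) - 1) = 64 * (m * 16 ^ k) - 4 * m := by ring
      rw [h5] at h3
      have h6 : L ≤ 16 * (1 + Real.log ((i : ℝ) + 1)) := by linarith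
      refine (hL2 i).trans ?_
      have h7 := C1_mono (t := t) ht h6
      have h8 := C1_sixteen (M := 1 + Real.log ((i : ℝ) + 1)) ht
      linarith
  · subst h
    intro i
    rw [hx0']
    simp
  · -- profile
    let Bk : ℕ → Finset (Fin d) := fun k =>
      Finset.univ.filter (fun i => (1 / 8 : ℝ) ^ k < gg t (M k) (en a (x k) i))
    refine ⟨(Finset.Ico k0 Q).biUnion Bk, ?_, fun i hi => ?_⟩
    · have h1 : ∀ k, ((Bk k).card : ℝ) ≤ 115200 * exp L *
          (m * 65536 ^ k * exp (-(4 * m * (16 ^ k - 1)))) := by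
        intro k
        have hM0 : 0 ≤ M k := by linarith [hM1 k]
        have h2 := count_bad' a t ht col (x k) (N k) (M k) ((1 / 8) ^ k) hM0
          (by positivity) (hxN k) (Bk k) (fun i hi => (Finset.mem_filter.mp hi).2)
        have h3 : ((1 / 8 : ℝ) ^ k) ^ 4 = 1 / 4096 ^ k := by
          rw [← pow_mul, mul_comm k 4, pow_mul, show (1 / 8 : ℝ) ^ 4 = 1 / 4096 by norm_num,
            one_div_pow]
        rw [h3, mul_one_div, div_le_iff₀ (by positivity)] at h2
        refine h2.trans (le_of_eq ?_)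
        have h4 : N k = exp L * exp (-(4 * m * (16 ^ k - 1))) := by
          simp only [N]
          rw [← exp_add]; congr 1
        have h5 : (65536 : ℝ) ^ k = 16 ^ k * 4096 ^ k := by rw [← mul_pow]; norm_num
        rw [h4, h5]
        show 960 * (120 * m * 16 ^ k) * (exp L * exp (-(4 * m * (16 ^ k - 1)))) * 4096 ^ k = _
        ring
      calc (((Finset.Ico k0 Q).biUnion Bk).card : ℝ) ≤ ∑ k ∈ Finset.Ico k0 Q, ((Bk k).card : ℝ) := by
            exact_mod_cast Finset.card_biUnion_le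
        _ ≤ ∑ k ∈ Finset.Ico k0 Q, 115200 * exp L *
            (m * 65536 ^ k * exp (-(4 * m * (16 ^ k - 1)))) := Finset.sum_le_sum fun k _ => h1 k
        _ ≤ 115200 * exp L * (2 * exp (-(2 * m * 16 ^ k0))) := by
            rw [← Finset.mul_sum]
            exact mul_le_mul_of_nonneg_left (bad_sum' hm1 k0 Q hk1) (by positivity)
        _ = 230400 * exp (L - 2 * m * 16 ^ k0) := by
            rw [show L - 2 * m * 16 ^ k0 = L + -(2 * m * 16 ^ k0) by ring, exp_add]; ring
    · have h1 := hsum Q i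
      rw [hx0'] at h1
      refine h1.trans ?_
      have h2 : ∑ k ∈ range Q, chg a t M T x i k
          = ∑ k ∈ range k0, chg a t M T x i k + ∑ k ∈ Finset.Ico k0 Q, chg a t M T x i k :=
        (Finset.sum_range_add_sum_Ico _ hk2).symm
      rw [h2]
      apply add_le_add
      · obtain ⟨q, rfl⟩ := Nat.exists_eq_succ_of_ne_zero (show k0 ≠ 0 by omega)
        refine (Finset.sum_le_sum fun k _ => chg_le a t ht M T x i k).trans ?_
        exact hup q
      · have h3 : ∀ k ∈ Finset.Ico k0 Q, chg a t M T x i k ≤ C1 t (120 * m) * (1 / 2) ^ k := by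
          intro k hk
          have h4 : gg t (M k) (en a (x k) i) ≤ (1 / 8) ^ k := by
            by_contra hcon
            push Not at hcon
            exact hi (Finset.mem_biUnion.mpr ⟨k, hk, Finset.mem_filter.mpr ⟨Finset.mem_univ _, hcon⟩⟩)
          have h5 := C1_pow (t := t) (M := 120 * m) ht k
          have h6 := C1_nonneg (M := M k) ht
          calc chg a t M T x i k ≤ C1 t (M k) * gg t (M k) (en a (x k) i) :=
                chg_le_gg a t ht M T x i k
            _ ≤ C1 t (M k) * (1 / 8) ^ k := mul_le_mul_of_nonneg_left h4 h6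
            _ ≤ (4 ^ k * C1 t (120 * m)) * (1 / 8) ^ k :=
                mul_le_mul_of_nonneg_right h5 (by positivity)
            _ = C1 t (120 * m) * (4 ^ k * (1 / 8) ^ k) := by ring
            _ = C1 t (120 * m) * (1 / 2) ^ k := by rw [← mul_pow]; norm_num
        refine (Finset.sum_le_sum h3).trans ?_
        rw [← Finset.mul_sum]
        have h4 := mul_le_mul_of_nonneg_left (half_sum k0 Q) (C1_nonneg (M := 120 * m) ht)
        linarith

theorem s4_prod (t L : ℝ) (hL : 0 < L) (e : ℝ) (he : e ≤ 1 / L ^ 2) (he0 : 0 ≤ e) (j : ℕ) :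
    s4 (960 * (15 / 8 * (L / 16 ^ j))) * s4 (960 * (15 / 8 * (L / 16 ^ j)) * e)
      ≤ 43 * (1 / 4) ^ j := by
  have h1 : 0 ≤ 960 * (15 / 8 * (L / 16 ^ j)) := by positivity
  rw [← s4_mul h1]
  apply s4_le (by positivity)
  have h2 : 960 * (15 / 8 * (L / 16 ^ j)) * (960 * (15 / 8 * (L / 16 ^ j)) * e)
      ≤ 960 * (15 / 8 * (L / 16 ^ j)) * (960 * (15 / 8 * (L / 16 ^ j)) * (1 / L ^ 2)) :=
    mul_le_mul_of_nonneg_left (mul_le_mul_of_nonneg_left he h1) h1
  refine h2.trans ?_
  have h3 : 960 * (15 / 8 * (L / 16 ^ j)) * (960 * (15 / 8 * (L / 16 ^ j)) * (1 / L ^ 2))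
      = 3240000 * (1 / 16 ^ j) ^ 2 := by
    field_simp
    norm_num
  have h4 : (43 * (1 / 4 : ℝ) ^ j) ^ 4 = 3418801 * (1 / 16 ^ j) ^ 2 := by
    have h5 : (1 / 16 ^ j : ℝ) = ((1 / 4) ^ j) ^ 2 := by
      rw [← pow_mul, mul_comm j 2, pow_mul, show (1 / 4 : ℝ) ^ 2 = 1 / 16 by norm_num, one_div_pow]
    rw [h5]; ring
  rw [h3, h4]
  have : (0 : ℝ) ≤ (1 / 16 ^ j) ^ 2 := by positivity
  linarith

/-- The second sequence of phases. -/
theorem desc {d : ℕ} {J : Type*} [Fintype J] (a : Fin d → J → ℝ) (t : ℝ) (ht : 1 ≤ t)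
    (a1 : ∀ i j, |a i j| ≤ 1) (col : ∀ j, ∑ i, a i j ^ 2 ≤ t) (L : ℝ) (hL : 0 ≤ L)
    (x0 : J → ℝ) (hx0 : ∀ j, |x0 j| ≤ 1) (h0 : ((alive x0).card : ℝ) ≤ exp L) :
    ∃ x1 : J → ℝ, Ext x0 x1 ∧ (∀ j, |x1 j| = 1) ∧
      (∀ i : Fin d, |∑ j, a i j * (x1 j - x0 j)|
        ≤ 32 * C1 t (1 + Real.log ((i : ℝ) + 1)) + C1 t (120 * mu t)) ∧
      (∀ i, |∑ j, a i j * (x1 j - x0 j)| ≤ 2 * C1 t (2 * L) + C1 t (120 * mu t)) ∧
      (0 < L → ∀ i, en a x0 i / t ≤ 1 / L ^ 2 →
        |∑ j, a i j * (x1 j - x0 j)| ≤ 29900 * Real.sqrt t + C1 t (120 * mu t)) := by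
  classical
  set m := mu t with hm
  have hm1 : 1 ≤ m := one_le_mu t
  have hex : ∃ R : ℕ, L / 16 ^ R < 2 * m := by
    obtain ⟨n, hn⟩ := pow_unbounded_of_one_lt L (by norm_num : (1 : ℝ) < 16)
    refine ⟨n, ?_⟩
    have h1 : L / 16 ^ n < 1 := by rw [div_lt_one (by positivity)]; exact hn
    linarith
  let R := Nat.find hex
  have hR1 : L / 16 ^ R < 2 * m := Nat.find_spec hex
  have hR2 : ∀ j, j < R → 2 * m ≤ L / 16 ^ j := fun j hj => not_lt.mp (Nat.find_min hex hj)
  let M : ℕ → ℝ := fun j => max 3 (15 / 8 * (L / 16 ^ j))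
  let N : ℕ → ℝ := fun j => exp (L / 16 ^ j)
  have hMR : ∀ j, j < R → M j = 15 / 8 * (L / 16 ^ j) := by
    intro j hj
    have := hR2 j hj
    exact max_eq_right (by linarith)
  have hNM : ∀ j, N j * exp (-(M j / 2)) ≤ N (j + 1) := by
    intro j
    simp only [N, M]
    rw [← exp_add]
    apply exp_le_exp.mpr
    have h1 : 15 / 8 * (L / 16 ^ j) ≤ max 3 (15 / 8 * (L / 16 ^ j)) := le_max_right _ _
    have h2 : L / 16 ^ (j + 1) = L / 16 ^ j / 16 := by rw [pow_succ]; field_simp
    rw [h2]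
    linarith
  let T : ℕ → Finset (Fin d) := fun j => top d (N j * exp (-(M j / 2)) / 50)
  obtain ⟨x, hx0', hx1, hxN, hxE, hxc⟩ := process a t ht a1 col M N
    (fun j => le_max_left _ _) hNM T (fun j => by
      have h1 : 0 < N j * exp (-(M j / 2)) := mul_pos (exp_pos _) (exp_pos _)
      have := card_top d (X := N j * exp (-(M j / 2)) / 50) (by positivity)
      show 50 * ((top d (N j * exp (-(M j / 2)) / 50)).card : ℝ) ≤ _
      linarith) x0 hx0 (by simp only [N]; simpa using h0)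
  have hsum := sum_chg a x (chg a t M T x) hxc
  have hext := ext_all hx1 hxE
  rw [hx0'] at hext
  -- the last phase
  obtain ⟨y, hy1, -, hy2, hy3⟩ := phase a t ht a1 col (x R) (hx1 R) (2 * m + 4) (by linarith) ∅
  have hysign : ∀ j, |y j| = 1 := by
    apply sign_of_alive hy1.1
    refine lt_of_le_of_lt hy3 ?_
    have h1 : ((alive (x R)).card : ℝ) ≤ exp (2 * m) := (hxN R).trans (exp_le_exp.mpr hR1.le)
    have h2 : exp (-(2 * m + 4)) = exp (-(2 * m)) * exp (-4) := by rw [← exp_add]; congr 1; ring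
    have h3 : exp (2 * m) * exp (-(2 * m)) = 1 := by rw [← exp_add]; simp
    have h4 : exp (-4 : ℝ) ≤ 1 / 50 := by
      rw [exp_neg, one_div]
      exact inv_anti₀ (by norm_num) exp_four
    rw [Finset.card_empty, h2]
    have h5 : ((alive (x R)).card : ℝ) * (exp (-(2 * m)) * exp (-4))
        ≤ exp (2 * m) * (exp (-(2 * m)) * exp (-4)) :=
      mul_le_mul_of_nonneg_right h1 (by positivity)
    have h6 : exp (2 * m) * (exp (-(2 * m)) * exp (-4)) = exp (-4) := by
      rw [← mul_assoc, h3, one_mul]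
    push_cast
    linarith
  have hlast : ∀ i, |∑ j, a i j * (y j - x R j)| ≤ C1 t (120 * m) := by
    intro i
    refine (hy2 i).trans ?_
    have h1 := C1_nonneg (M := 2 * m + 4) ht
    calc C1 t (2 * m + 4) * gg t (2 * m + 4) (en a (x R) i) ≤ C1 t (2 * m + 4) * 1 :=
          mul_le_mul_of_nonneg_left (gg_le_one _ _ _) h1
      _ ≤ C1 t (120 * m) := by rw [mul_one]; exact C1_mono ht (by linarith)
  have htot : ∀ i (Y : ℝ), ∑ j ∈ range R, chg a t M T x i j ≤ Y →
      |∑ j, a i j * (y j - x0 j)| ≤ Y + C1 t (120 * m) := by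
    intro i Y hY
    have h1 := hsum R i
    rw [hx0'] at h1
    have h2 : ∑ j, a i j * (y j - x0 j)
        = ∑ j, a i j * (x R j - x0 j) + ∑ j, a i j * (y j - x R j) := by
      rw [← Finset.sum_add_distrib]
      exact Finset.sum_congr rfl fun j _ => by ring
    rw [h2]
    refine (abs_add_le _ _).trans ?_
    linarith [hlast i]
  have hdbl : ∀ j, j + 1 < R →
      2 * C1 t (15 / 8 * (L / 16 ^ (j + 1))) ≤ C1 t (15 / 8 * (L / 16 ^ j)) := by
    intro j hj
    have h1 := hR2 (j + 1) hj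
    have h2 := C1_double (t := t) (M := 15 / 8 * (L / 16 ^ (j + 1))) ht (by linarith)
    have h3 : 16 * (15 / 8 * (L / 16 ^ (j + 1))) = 15 / 8 * (L / 16 ^ j) := by
      rw [pow_succ]; field_simp
    rwa [h3] at h2
  refine ⟨y, (hext R).trans hy1, hysign, fun i => ?_, fun i => ?_, fun hL0 i hi => ?_⟩
  · apply htot
    have hlog : 0 ≤ Real.log ((i : ℝ) + 1) := Real.log_nonneg (by
      have : (0 : ℝ) ≤ (i : ℝ) := Nat.cast_nonneg _
      linarith)
    have hY := C1_nonneg (M := 1 + Real.log ((i : ℝ) + 1)) ht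
    have h1 := geo_down (fun j => C1 t (15 / 8 * (L / 16 ^ j))) (fun j => chg a t M T x i j)
      (16 * C1 t (1 + Real.log ((i : ℝ) + 1))) (by linarith) R (fun j _ => C1_nonneg ht) hdbl
      (by
        intro j hj
        by_cases hij : i ∈ T j
        · left; exact chg_zero a t M T x i j hij
        · right
          refine ⟨?_, ?_⟩
          · have := chg_le a t ht M T x i j
            rwa [hMR j hj] at this
          · apply C1_256 ht
            have h2 : i ∉ top d (exp (L / 16 ^ j / 16) / 50) := by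
              have h3 : N j * exp (-(M j / 2)) = exp (L / 16 ^ j / 16) := by
                rw [hMR j hj]
                simp only [N]
                rw [← exp_add]; congr 1; ring
              have h4 : T j = top d (exp (L / 16 ^ j / 16) / 50) := by simp only [T]; rw [h3]
              rwa [h4] at hij
            have h3 := log_of_not_top h2
            linarith)
    linarith
  · apply htot
    exact geo_down (fun j => C1 t (15 / 8 * (L / 16 ^ j))) (fun j => chg a t M T x i j)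
      (C1 t (2 * L)) (C1_nonneg ht) R (fun j _ => C1_nonneg ht) hdbl
      (by
        intro j hj
        right
        refine ⟨?_, ?_⟩
        · have := chg_le a t ht M T x i j
          rwa [hMR j hj] at this
        · apply C1_mono ht
          have h1 : L / 16 ^ j ≤ L := div_le_self hL (one_le_pow₀ (by norm_num))
          linarith)
  · apply htot
    have h1 : ∀ j ∈ range R, chg a t M T x i j ≤ 22360 * Real.sqrt t * (1 / 4) ^ j := by
      intro j hj
      have hj' := Finset.mem_range.mp hj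
      have h2 := chg_le_gg a t ht M T x i j
      rw [hMR j hj'] at h2
      have hen : en a (x j) i / t ≤ 1 / L ^ 2 := by
        have h3 := en_anti a hx0 (hext j) i
        have h4 : en a (x j) i / t ≤ en a x0 i / t := div_le_div_of_nonneg_right h3 (by linarith)
        exact h4.trans hi
      have hen0 : 0 ≤ en a (x j) i / t := div_nonneg (en_nonneg _ _ _) (by linarith)
      have h3 := gg_le' t (15 / 8 * (L / 16 ^ j)) (en a (x j) i)
      have h4 := C1_le t (15 / 8 * (L / 16 ^ j))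
      have h5 := s4_prod t L hL0 _ hen hen0 j
      have h6 := Real.sqrt_nonneg t
      have h7 := s4_nonneg (960 * (15 / 8 * (L / 16 ^ j)))
      refine h2.trans ?_
      calc C1 t (15 / 8 * (L / 16 ^ j)) * gg t (15 / 8 * (L / 16 ^ j)) (en a (x j) i)
          ≤ (520 * s4 (960 * (15 / 8 * (L / 16 ^ j))) * Real.sqrt t) *
            s4 (960 * (15 / 8 * (L / 16 ^ j)) * (en a (x j) i / t)) :=
            mul_le_mul h4 h3 (gg_nonneg _ _ _) (by positivity)
        _ = 520 * Real.sqrt t * (s4 (960 * (15 / 8 * (L / 16 ^ j))) *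
            s4 (960 * (15 / 8 * (L / 16 ^ j)) * (en a (x j) i / t))) := by ring
        _ ≤ 520 * Real.sqrt t * (43 * (1 / 4) ^ j) := mul_le_mul_of_nonneg_left h5 (by positivity)
        _ = 22360 * Real.sqrt t * (1 / 4) ^ j := by ring
    refine (Finset.sum_le_sum h1).trans ?_
    rw [← Finset.mul_sum]
    have h2 := mul_le_mul_of_nonneg_left (quarter_sum R)
      (show 0 ≤ 22360 * Real.sqrt t by positivity)
    have h3 := Real.sqrt_nonneg t
    linarith

end Pool.Agent.H86.KB
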