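import Pool.Agent.H86.KB.Prof2
import Pool.Agent.H167R2.KNLin

/-!
# The profile theorem
-/

namespace Pool.Agent.H86.KB

open Finset Real

theorem sq_le_exp {L : ℝ} (hL : 0 ≤ L) : L ^ 2 ≤ 131072 * exp (L / 256) := by
  have h := Real.quadratic_le_exp_of_nonneg (show 0 ≤ L / 256 by positivity)
  nlinarith

/-- One signing with graded bounds for the rows, and with few rows above each level. -/
theorem profile {d n : ℕ} (a : Fin d → Fin n → ℝ) (t : ℝ) (ht : 1 ≤ t)
    (a1 : ∀ i j, |a i j| ≤ 1) (col : ∀ j, ∑ i, a i j ^ 2 ≤ t) (x : Fin n → ℝ)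
    (hx : ∀ j, |x j| ≤ 1) :
    ∃ y : Fin n → ℝ, Ext x y ∧ (∀ j, |y j| = 1) ∧
      (∀ i : Fin d, |∑ j, a i j * (y j - x j)| ≤ 4500 * C1 t (1 + Real.log ((i : ℝ) + 1))) ∧
      ∀ z : ℝ, 0 ≤ z → ((Finset.univ.filter fun i : Fin d =>
          4500 * C1 t (1 + z) < |∑ j, a i j * (y j - x j)|).card : ℝ)
        ≤ 400000 * (min n d : ℕ) * exp (-z) := by
  classical
  set m := mu t with hm
  have hm1 : 1 ≤ m := one_le_mu t
  have hmu := C1_mu ht
  have hst := Real.sqrt_nonneg t
  obtain ⟨x1, hx1a, hx1b, hx1c⟩ := H167KN.reduce a _ x hx le_rfl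
  have hcard : (alive x1).card ≤ min n d := by
    have h1 : (alive x1).card ≤ Fintype.card (Fin n) := Finset.card_le_univ _
    have h2 : (alive x1).card ≤ Fintype.card (Fin d) := hx1c
    rw [Fintype.card_fin] at h1 h2
    exact le_min h1 h2
  set n' : ℕ := min n d with hn'
  set L : ℝ := Real.log (max 1 (n' : ℝ)) with hL
  have hmax : 0 < max 1 (n' : ℝ) := lt_of_lt_of_le one_pos (le_max_left _ _)
  have hL0 : 0 ≤ L := Real.log_nonneg (le_max_left _ _)
  have hexpL : exp L = max 1 (n' : ℝ) := Real.exp_log hmax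
  have hal : ((alive x1).card : ℝ) ≤ exp L := by
    rw [hexpL]
    have : ((alive x1).card : ℝ) ≤ n' := by exact_mod_cast hcard
    exact this.trans (le_max_right _ _)
  -- the number of growing phases
  have hexQ : ∃ Q : ℕ, L < 480 * m * 16 ^ Q := by
    obtain ⟨q, hq⟩ := pow_unbounded_of_one_lt L (by norm_num : (1 : ℝ) < 16)
    refine ⟨q, hq.trans_le ?_⟩
    have : (0 : ℝ) < 16 ^ q := by positivity
    nlinarith
  let Q := Nat.find hexQ
  have hQ1 : L < 480 * m * 16 ^ Q := Nat.find_spec hexQ
  have hQ2 : ∀ k, k < Q → 480 * m * 16 ^ k ≤ L := fun k hk => not_lt.mp (Nat.find_min hexQ hk)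
  obtain ⟨x2, hx2, hx2c, hA1, hA2, hA3, hA4⟩ := asc a t ht a1 col L x1 hx1a.1 hal Q hQ2
  have h16 : (1 : ℝ) ≤ 16 ^ Q := one_le_pow₀ (by norm_num)
  have hal2 : ((alive x2).card : ℝ) ≤ exp L := by
    refine hx2c.trans (exp_le_exp.mpr ?_)
    have : 0 ≤ 4 * m * (16 ^ Q - 1) := mul_nonneg (by linarith) (by linarith)
    linarith
  obtain ⟨y, hy, hys, hD1, hD2, hD3⟩ := desc a t ht a1 col L hL0 x2 hx2.1 hal2
  have htot : ∀ i, |∑ j, a i j * (y j - x j)|
      ≤ |∑ j, a i j * (x2 j - x1 j)| + |∑ j, a i j * (y j - x2 j)| := by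
    intro i
    have h1 : ∑ j, a i j * (y j - x j) = ∑ j, a i j * (x1 j - x j)
        + (∑ j, a i j * (x2 j - x1 j) + ∑ j, a i j * (y j - x2 j)) := by
      rw [← Finset.sum_add_distrib, ← Finset.sum_add_distrib]
      exact Finset.sum_congr rfl fun j _ => by ring
    rw [h1, hx1b i, zero_add]
    exact abs_add_le _ _
  have hKge : ∀ w : ℝ, 0 ≤ w → 520 * Real.sqrt t ≤ C1 t (1 + w) := fun w hw =>
    C1_ge ht (by linarith)
  refine ⟨y, ?_, hys, fun i => ?_, fun z hz => ?_⟩
  · exact (Ext.trans (show Ext x x1 from hx1a) hx2).trans hy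
  · have hlog : 0 ≤ Real.log ((i : ℝ) + 1) := Real.log_nonneg (by
      have : (0 : ℝ) ≤ (i : ℝ) := Nat.cast_nonneg _
      linarith)
    have h1 := hKge _ hlog
    have h2 := htot i
    have h3 := hA1 i
    have h4 := hD1 i
    linarith
  · have hK := hKge z hz
    by_cases hcase : Q = 0 ∨ L ≤ 256 * z
    · -- there is no row above the level
      have hno : ∀ i, |∑ j, a i j * (y j - x j)| ≤ 4500 * C1 t (1 + z) := by
        intro i
        refine (htot i).trans ?_
        rcases hcase with h | h
        · have h1 : |∑ j, a i j * (x2 j - x1 j)| = 0 := by rw [hA3 h i, abs_zero]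
          have h2 := hD2 i
          have h3 : L < 480 * m := by
            have := hQ1
            rw [h, pow_zero, mul_one] at this
            exact this
          have h4 : C1 t (2 * L) ≤ C1 t (16 * (120 * m)) := C1_mono ht (by linarith)
          have h5 := C1_sixteen (M := 120 * m) ht
          linarith
        · have h1 := hA2 i
          have h2 := hD2 i
          have h3 : C1 t L ≤ C1 t (2 * L) := C1_mono ht (by linarith)
          have h4 : C1 t (2 * L) ≤ C1 t (16 * (256 * (1 + z))) := C1_mono ht (by linarith)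
          have h5 := C1_sixteen (M := 256 * (1 + z)) ht
          have h6 : C1 t (256 * (1 + z)) ≤ 16 * C1 t (1 + z) := C1_256 ht le_rfl
          linarith
      have hempty : (Finset.univ.filter fun i : Fin d =>
          4500 * C1 t (1 + z) < |∑ j, a i j * (y j - x j)|) = ∅ := by
        rw [Finset.filter_eq_empty_iff]
        intro i _
        exact not_lt.mpr (hno i)
      rw [hempty, Finset.card_empty]
      push_cast
      positivity
    · push Not at hcase
      obtain ⟨hQ0, hzL⟩ := hcase
      have hL1 : 0 < L := by linarith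
      have hn1 : exp L = n' := by
        rw [hexpL]
        apply max_eq_right
        by_contra hcon
        push Not at hcon
        have : L = 0 := by rw [hL, max_eq_left hcon.le, Real.log_one]
        linarith
      have hexk : ∃ k : ℕ, 1 ≤ k ∧ z ≤ 2 * m * 16 ^ k := by
        refine ⟨Q, by omega, ?_⟩
        have : 0 < m * 16 ^ Q := by positivity
        linarith
      let k0 := Nat.find hexk
      have hk1 : 1 ≤ k0 := (Nat.find_spec hexk).1
      have hk2 : z ≤ 2 * m * 16 ^ k0 := (Nat.find_spec hexk).2
      have hk3 : k0 ≤ Q := Nat.find_min' hexk ⟨by omega, by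
        have : 0 < m * 16 ^ Q := by positivity
        linarith⟩
      have hk4 : C1 t (120 * m * 16 ^ (k0 - 1)) ≤ 500 * C1 t (1 + z) := by
        rcases Nat.lt_or_ge 1 k0 with h | h
        · have h1 := Nat.find_min hexk (show k0 - 1 < k0 by omega)
          push Not at h1
          have h2 := h1 (by omega)
          have h3 : C1 t (120 * m * 16 ^ (k0 - 1)) ≤ 16 * C1 t (1 + z) :=
            C1_256 ht (by linarith)
          have h4 := C1_nonneg (M := 1 + z) ht
          linarith
        · have h1 : k0 - 1 = 0 := by omega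
          rw [h1, pow_zero, mul_one]
          linarith
      obtain ⟨B, hB1, hB2⟩ := hA4 k0 hk1 hk3
      let B2 : Finset (Fin d) := Finset.univ.filter fun i => 1 / L ^ 2 < en a x2 i / t
      have hB2c : (B2.card : ℝ) ≤ 131072 * exp (L - z) := by
        have h1 := count_en' a t ht col x2 _ (1 / L ^ 2) hx2c B2
          (fun i hi => (Finset.mem_filter.mp hi).2)
        rw [mul_one_div, div_le_iff₀ (by positivity)] at h1
        have h16' : (16 : ℝ) ≤ 16 ^ Q := by
          calc (16 : ℝ) = 16 ^ 1 := (pow_one _).symm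
            _ ≤ 16 ^ Q := pow_le_pow_right₀ (by norm_num) (by omega)
        have h2 : exp (L - 4 * m * (16 ^ Q - 1)) ≤ exp (L - L / 128) := by
          apply exp_le_exp.mpr
          nlinarith
        have h3 := sq_le_exp hL0
        calc (B2.card : ℝ) ≤ exp (L - 4 * m * (16 ^ Q - 1)) * L ^ 2 := h1
          _ ≤ exp (L - L / 128) * (131072 * exp (L / 256)) :=
              mul_le_mul h2 h3 (by positivity) (exp_pos _).le
          _ = 131072 * exp (L - L / 256) := by
              rw [show L - L / 256 = (L - L / 128) + L / 256 by ring, exp_add]; ring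
          _ ≤ 131072 * exp (L - z) := by
              apply mul_le_mul_of_nonneg_left _ (by norm_num)
              apply exp_le_exp.mpr
              linarith
      have hBc : (B.card : ℝ) ≤ 230400 * exp (L - z) := by
        refine hB1.trans ?_
        apply mul_le_mul_of_nonneg_left _ (by norm_num)
        apply exp_le_exp.mpr
        linarith
      have hsub : (Finset.univ.filter fun i : Fin d =>
          4500 * C1 t (1 + z) < |∑ j, a i j * (y j - x j)|) ⊆ B ∪ B2 := by
        intro i hi
        by_contra hcon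
        rw [Finset.mem_union, not_or] at hcon
        have h1 := (Finset.mem_filter.mp hi).2
        have h2 := hB2 i hcon.1
        have h3 : en a x2 i / t ≤ 1 / L ^ 2 := by
          by_contra h4
          push Not at h4
          exact hcon.2 (Finset.mem_filter.mpr ⟨Finset.mem_univ _, h4⟩)
        have h4 := hD3 hL1 i h3
        have h5 := htot i
        linarith
      have h1 : ((Finset.univ.filter fun i : Fin d =>
          4500 * C1 t (1 + z) < |∑ j, a i j * (y j - x j)|).card : ℝ) ≤ (B ∪ B2).card := by
        exact_mod_cast Finset.card_le_card hsub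
      have h2 : ((B ∪ B2).card : ℝ) ≤ B.card + B2.card := by
        exact_mod_cast Finset.card_union_le _ _
      have h3 : exp (L - z) = n' * exp (-z) := by
        rw [← hn1, ← exp_add]; congr 1
      rw [h3] at hB2c hBc
      have h4 : 0 ≤ (n' : ℝ) * exp (-z) := by positivity
      linarith

end Pool.Agent.H86.KB
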