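import Pool.Agent.H86.KB.Graded2
import Pool.Agent.H167R2.FKMinimax

/-!
# From initial segments to arbitrary weights and to distributions
-/

namespace Pool.Agent.H86.KB

open Finset Real

/-- Summation by parts. -/
theorem abel (d : ℕ) (w f : Fin d → ℝ) (hw : Antitone w) (hw0 : ∀ i, 0 ≤ w i) (B : ℝ)
    (h : ∀ m ≤ d, ∑ i ∈ Finset.univ.filter (fun i : Fin d => (i : ℕ) < m), f i ≤ m * B) :
    ∑ i, w i * f i ≤ B * ∑ i, w i := by
  classical
  rcases Nat.eq_zero_or_pos d with hd | hd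
  · subst hd; simp
  set W : ℕ → ℝ := fun k => if hk : k < d then w ⟨k, hk⟩ else 0 with hW
  set F : ℕ → ℝ := fun k => if hk : k < d then f ⟨k, hk⟩ else 0 with hF
  have hWf : ∀ i : Fin d, W i = w i := fun i => by simp [hW]
  have hFf : ∀ i : Fin d, F i = f i := fun i => by simp [hF]
  have hpart : ∀ m ≤ d, ∑ k ∈ range m, F k ≤ m * B := by
    intro m hm
    refine le_trans (le_of_eq ?_) (h m hm)
    have h1 : (Finset.univ.filter (fun i : Fin d => (i : ℕ) < m)).map Fin.valEmbedding = range m := by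
      ext k
      simp only [Finset.mem_map, Finset.mem_filter, Finset.mem_univ, true_and,
        Fin.valEmbedding_apply, Finset.mem_range]
      constructor
      · rintro ⟨i, hi, rfl⟩; exact hi
      · intro hk; exact ⟨⟨k, lt_of_lt_of_le hk hm⟩, hk, rfl⟩
    rw [← h1, Finset.sum_map]
    exact Finset.sum_congr rfl fun i _ => by rw [Fin.valEmbedding_apply, hFf]
  have hpart2 : ∀ m ≤ d, ∑ k ∈ range m, (F k - B) ≤ 0 := by
    intro m hm
    rw [Finset.sum_sub_distrib, Finset.sum_const, Finset.card_range, nsmul_eq_mul]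
    linarith [hpart m hm]
  have hWanti : ∀ k, k + 1 < d → W (k + 1) ≤ W k := by
    intro k hk
    have h1 : k < d := by omega
    simp only [hW, dif_pos hk, dif_pos h1]
    exact hw (Fin.mk_le_mk.mpr (Nat.le_succ k))
  have key : ∀ m, m < d → ∑ k ∈ range (m + 1), W k * (F k - B)
      ≤ W m * ∑ k ∈ range (m + 1), (F k - B) := by
    intro m
    induction m with
    | zero => intro _; simp
    | succ m ih =>
      intro hm
      have h1 := ih (by omega)
      have h2 := hpart2 (m + 1) (by omega)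
      have h3 := hWanti m hm
      rw [Finset.sum_range_succ, Finset.sum_range_succ (fun k => F k - B)]
      have h4 : W m * ∑ k ∈ range (m + 1), (F k - B)
          ≤ W (m + 1) * ∑ k ∈ range (m + 1), (F k - B) :=
        mul_le_mul_of_nonpos_right h3 h2
      linarith
  obtain ⟨e, rfl⟩ := Nat.exists_eq_succ_of_ne_zero hd.ne'
  have h1 := key e (Nat.lt_succ_self e)
  have h2 := hpart2 (e + 1) le_rfl
  have h3 : 0 ≤ W e := by
    have := hw0 ⟨e, Nat.lt_succ_self e⟩
    rw [← hWf] at this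
    exact this
  have h4 : ∑ k ∈ range (e + 1), W k * (F k - B) ≤ 0 :=
    h1.trans (mul_nonpos_of_nonneg_of_nonpos h3 h2)
  have h5 : ∑ k ∈ range (e + 1), W k * (F k - B) = ∑ i : Fin (e + 1), w i * (f i - B) := by
    rw [Finset.sum_range]
    exact Finset.sum_congr rfl fun i _ => by rw [hWf, hFf]
  rw [h5] at h4
  have h6 : ∑ i : Fin (e + 1), w i * (f i - B) = ∑ i, w i * f i - B * ∑ i, w i := by
    rw [Finset.mul_sum, ← Finset.sum_sub_distrib]
    exact Finset.sum_congr rfl fun i _ => by ring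
  linarith

variable {d : ℕ} {J : Type*} [Fintype J]

theorem bernoulli (z : ℝ) (hz : 0 ≤ z) : z ≤ (19 + z ^ 20) / 20 := by
  have h := one_add_mul_le_pow (a := z - 1) (by linarith) 20
  have e : (1 : ℝ) + (z - 1) = z := by ring
  rw [e] at h
  push_cast at h
  linarith

theorem graded_psi (a : Fin d → J → ℝ) (t : ℝ) (ht : 1 ≤ t) (a1 : ∀ i j, |a i j| ≤ 1)
    (col : ∀ j, ∑ i, a i j ^ 2 ≤ t) (p : ℝ) (hp : 1 ≤ p) (x0 : J → ℝ) (hx0 : ∀ j, |x0 j| ≤ 1) :
    ∃ y : J → ℝ, Ext x0 y ∧ (∀ j, |y j| = 1) ∧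
      ∀ m : ℕ, ∑ i ∈ Finset.univ.filter (fun i : Fin d => (i : ℕ) < m),
        exp (p * (|∑ j, a i j * (y j - x0 j)| / (20 * C1 t (16 * p)) - 1)) ≤ m := by
  classical
  obtain ⟨y, h1, h2, h3⟩ := graded_exp a t ht a1 col p hp x0 hx0
  refine ⟨y, h1, h2, fun m => ?_⟩
  have h4 := h3 m
  have hC0 : 0 < C1 t (16 * p) := C1_pos ht (by linarith)
  set C : ℝ := C1 t (16 * p) with hC
  set S : Finset (Fin d) := Finset.univ.filter (fun i : Fin d => (i : ℕ) < m) with hS
  have hScard : (S.card : ℝ) ≤ m := by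
    have h1 : S.map Fin.valEmbedding ⊆ Finset.range m := by
      intro j hj
      rw [Finset.mem_map] at hj
      obtain ⟨i, hi, rfl⟩ := hj
      rw [hS, Finset.mem_filter] at hi
      rw [Finset.mem_range]
      exact hi.2
    have h2 := Finset.card_le_card h1
    rw [Finset.card_map, Finset.card_range] at h2
    exact_mod_cast h2
  have h5 : ∀ i ∈ S, exp (p * (|∑ j, a i j * (y j - x0 j)| / (20 * C) - 1))
      ≤ 19 / 20 + exp (-(20 * p)) / 20 * exp (p * (|∑ j, a i j * (y j - x0 j)| / C)) := by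
    intro i _
    have h6 := bernoulli (exp (p * (|∑ j, a i j * (y j - x0 j)| / (20 * C) - 1))) (exp_pos _).le
    have h7 : exp (p * (|∑ j, a i j * (y j - x0 j)| / (20 * C) - 1)) ^ 20
        = exp (-(20 * p)) * exp (p * (|∑ j, a i j * (y j - x0 j)| / C)) := by
      rw [← exp_nat_mul, ← exp_add]
      congr 1
      push_cast
      field_simp
      ring
    rw [h7] at h6
    linarith
  refine (Finset.sum_le_sum h5).trans ?_
  rw [Finset.sum_add_distrib, ← Finset.mul_sum, Finset.sum_const, nsmul_eq_mul]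
  have h6 : exp (-(20 * p)) / 20 * ∑ i ∈ S, exp (p * (|∑ j, a i j * (y j - x0 j)| / C))
      ≤ exp (-(20 * p)) / 20 * (m * exp (20 * p)) :=
    mul_le_mul_of_nonneg_left h4 (by positivity)
  have h7 : exp (-(20 * p)) / 20 * (m * exp (20 * p)) = m / 20 := by
    have : exp (-(20 * p)) * exp (20 * p) = 1 := by rw [← exp_add]; simp
    calc exp (-(20 * p)) / 20 * (m * exp (20 * p))
        = (exp (-(20 * p)) * exp (20 * p)) * (m / 20) := by ring
      _ = m / 20 := by rw [this, one_mul]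
  rw [h7] at h6
  linarith

/-- Arbitrary weights. -/
theorem weighted_psi (a : Fin d → J → ℝ) (t : ℝ) (ht : 1 ≤ t) (a1 : ∀ i j, |a i j| ≤ 1)
    (col : ∀ j, ∑ i, a i j ^ 2 ≤ t) (p : ℝ) (hp : 1 ≤ p) (x0 : J → ℝ) (hx0 : ∀ j, |x0 j| ≤ 1)
    (w : Fin d → ℝ) (hw : ∀ i, 0 ≤ w i) :
    ∃ y : J → ℝ, Ext x0 y ∧ (∀ j, |y j| = 1) ∧
      ∑ i, w i * exp (p * (|∑ j, a i j * (y j - x0 j)| / (20 * C1 t (16 * p)) - 1)) ≤ ∑ i, w i := by
  set σ : Equiv.Perm (Fin d) := Tuple.sort (fun i => - w i) with hσ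
  have hmono : Monotone ((fun i => - w i) ∘ σ) := Tuple.monotone_sort _
  have hanti : Antitone (fun i => w (σ i)) := by
    intro i j hij
    have := hmono hij
    simp only [Function.comp_apply] at this
    simp only
    linarith
  obtain ⟨y, h1, h2, h3⟩ := graded_psi (fun i j => a (σ i) j) t ht (fun i j => a1 _ _)
    (fun j => by
      rw [Equiv.sum_comp σ (fun i => a i j ^ 2)]
      exact col j) p hp x0 hx0
  refine ⟨y, h1, h2, ?_⟩
  have h4 := abel d (fun i => w (σ i))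
    (fun i => exp (p * (|∑ j, a (σ i) j * (y j - x0 j)| / (20 * C1 t (16 * p)) - 1))) hanti
    (fun i => hw _) 1 (fun m _ => by rw [mul_one]; exact h3 m)
  rw [Equiv.sum_comp σ (fun i => w i *
    exp (p * (|∑ j, a i j * (y j - x0 j)| / (20 * C1 t (16 * p)) - 1))),
    Equiv.sum_comp σ w, one_mul] at h4
  exact h4

/-- The sign of a truth value. -/
def sgn (b : Bool) : ℝ := if b then 1 else -1

theorem abs_sgn (b : Bool) : |sgn b| = 1 := by
  unfold sgn; cases b <;> simp

/-- Distributions. -/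
theorem dist_of_weights {n : ℕ} (G : Finset (Fin n → Bool)) (E : (Fin n → Bool) → Fin d → ℝ)
    (ε : ℝ) (h : ∀ p : Fin d → ℝ, (∀ i, 0 ≤ p i) → ∃ b ∈ G, ∑ i, p i * E b i ≤ ε * ∑ i, p i) :
    ∃ μ : (Fin n → Bool) → ℝ, (∀ b, 0 ≤ μ b) ∧ ∑ b, μ b = 1 ∧ (∀ b, b ∉ G → μ b = 0) ∧
      ∀ i, ∑ b, μ b * E b i ≤ ε := by
  classical
  obtain ⟨w, hw0, hw1, hw2⟩ := H167FK.minimax (G.image E) ε (by
    intro p hp
    obtain ⟨b, hb, h1⟩ := h p hp
    exact ⟨E b, Finset.mem_image_of_mem _ hb, h1⟩)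
  have hrep : ∀ z ∈ G.image E, ∃ b ∈ G, E b = z := fun z hz => Finset.mem_image.mp hz
  choose! r hr1 hr2 using hrep
  have hsum : ∀ f : (Fin n → Bool) → ℝ,
      ∑ b, (∑ z ∈ G.image E, if r z = b then w z else 0) * f b = ∑ z ∈ G.image E, w z * f (r z) := by
    intro f
    simp only [Finset.sum_mul]
    rw [Finset.sum_comm]
    refine Finset.sum_congr rfl fun z _ => ?_
    simp only [ite_mul, zero_mul]
    rw [Finset.sum_ite_eq]
    simp
  refine ⟨fun b => ∑ z ∈ G.image E, if r z = b then w z else 0, fun b => ?_, ?_, fun b hb => ?_,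
    fun i => ?_⟩
  · refine Finset.sum_nonneg fun z hz => ?_
    split_ifs
    · exact hw0 z hz
    · exact le_rfl
  · have := hsum (fun _ => 1)
    simp only [mul_one] at this
    rw [this]
    exact hw1
  · refine Finset.sum_eq_zero fun z hz => ?_
    rw [if_neg]
    rintro rfl
    exact hb (hr1 z hz)
  · rw [hsum (fun b => E b i)]
    refine le_trans (le_of_eq ?_) (hw2 i)
    refine Finset.sum_congr rfl fun z hz => ?_
    rw [hr2 z hz]

end Pool.Agent.H86.KB
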